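import Pool.Agent.Q22.PK.Stm

/-!
Project PK (helper22), MP_c9e91a_gt, job ALG (helper214): the algebraic upper bound.
-/

set_option autoImplicit false

open Bundle Manifold ContDiff
open scoped Topology

noncomputable section

namespace Pool.Agent.Q22.PK

open Pool.Agent.H821R2 Pool.Agent.H893R5.HO

namespace ALG

theorem two_le_half {d : ℕ} (hd : 4 ≤ d) : (2 : ℝ) ≤ ((d / 2 : ℕ) : ℝ) := by
  have : 2 ≤ d / 2 := by omega
  exact_mod_cast this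

theorem bet_pos {d : ℕ} (hd : 4 ≤ d) : 0 < bet d := by
  have h := two_le_half hd
  unfold bet
  exact div_pos (by linarith) (by linarith)

theorem bet_lt {d : ℕ} (hd : 4 ≤ d) {δ : ℝ} (h : bet d < δ) :
    2 * ((d / 2 : ℕ) : ℝ) - 2 < δ * (2 * ((d / 2 : ℕ) : ℝ) + 1) := by
  have h2 := two_le_half hd
  unfold bet at h
  rwa [div_lt_iff₀ (by linarith)] at h

end ALG

theorem t_ALG : S_ALG := by
  intro hCF d hd V _ _ _ hfin R hR δ hδ hδ1 hpos hpin η hη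
  have hδ0 : 0 < δ := lt_trans (ALG.bet_pos hd) hδ
  -- an orthonormal pair
  obtain ⟨x₀, y₀, hx₀, hy₀, hxy₀⟩ : ∃ x y : V, inner ℝ x x = (1 : ℝ) ∧ inner ℝ y y = (1 : ℝ) ∧
      inner ℝ x y = (0 : ℝ) := by
    have e := (stdOrthonormalBasis ℝ V)
    rw [hfin] at e
    have ho := e.orthonormal
    have h01 : (⟨0, by omega⟩ : Fin d) ≠ ⟨1, by omega⟩ := by
      intro h
      have := congrArg Fin.val h
      simp at this
    refine ⟨e ⟨0, by omega⟩, e ⟨1, by omega⟩, ?_, ?_, ho.2 h01⟩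
    · rw [real_inner_self_eq_norm_sq, ho.1, one_pow]
    · rw [real_inner_self_eq_norm_sq, ho.1, one_pow]
  let S : Set ℝ := {κ | ∃ x y : V, inner ℝ x x = (1 : ℝ) ∧ inner ℝ y y = (1 : ℝ) ∧
    inner ℝ x y = (0 : ℝ) ∧ κ = kap R x y}
  have hne : S.Nonempty := ⟨_, x₀, y₀, hx₀, hy₀, hxy₀, rfl⟩
  have hub : ∀ x y : V, inner ℝ x x = (1 : ℝ) → inner ℝ y y = (1 : ℝ) → inner ℝ x y = (0 : ℝ) →
      ∀ κ ∈ S, κ ≤ kap R x y / δ := by
    rintro x y hx hy hxy κ ⟨x', y', hx', hy', hxy', rfl⟩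
    rw [le_div_iff₀ hδ0, mul_comm]
    exact hpin x y x' y' hx hy hxy hx' hy' hxy'
  have hbdd : BddAbove S := ⟨kap R x₀ y₀ / δ, fun κ hκ => hub x₀ y₀ hx₀ hy₀ hxy₀ κ hκ⟩
  set b : ℝ := sSup S with hb
  have hle : ∀ x y : V, inner ℝ x x = (1 : ℝ) → inner ℝ y y = (1 : ℝ) → inner ℝ x y = (0 : ℝ) →
      kap R x y ≤ b := fun x y hx hy hxy => le_csSup hbdd ⟨x, y, hx, hy, hxy, rfl⟩
  have hge : ∀ x y : V, inner ℝ x x = (1 : ℝ) → inner ℝ y y = (1 : ℝ) → inner ℝ x y = (0 : ℝ) →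
      δ * b ≤ kap R x y := by
    intro x y hx hy hxy
    have h := csSup_le hne (hub x y hx hy hxy)
    rw [le_div_iff₀ hδ0, mul_comm] at h
    exact h
  have hb0 : 0 < b := lt_of_lt_of_le (hpos x₀ y₀ hx₀ hy₀ hxy₀) (hle x₀ y₀ hx₀ hy₀ hxy₀)
  obtain ⟨k, u, v, c, hk, huu, hvv, huv, hsum⟩ := exists_normal_form d V hfin η
  have hc : ∃ i, c i ≠ 0 := by
    by_contra hcon
    push Not at hcon
    apply hη
    rw [hsum]
    refine Finset.sum_eq_zero (fun i _ => ?_)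
    rw [hcon i, zero_smul]
  have hkm : (k : ℝ) ≤ ((d / 2 : ℕ) : ℝ) := by
    have : k ≤ d / 2 := by omega
    exact_mod_cast this
  have h1 := ALG.bet_lt hd hδ
  have hab : δ * b ≤ b := by
    have := mul_le_mul_of_nonneg_right hδ1 hb0.le
    linarith
  have hineq : 2 / 3 * (b - δ * b) * ((k : ℝ) - 1) < δ * b := by
    have h2 : 2 / 3 * (b - δ * b) * ((k : ℝ) - 1) ≤
        2 / 3 * (b - δ * b) * (((d / 2 : ℕ) : ℝ) - 1) :=
      mul_le_mul_of_nonneg_left (by linarith) (by linarith)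
    have h3 : 0 < b * (δ * (2 * ((d / 2 : ℕ) : ℝ) + 1) - (2 * ((d / 2 : ℕ) : ℝ) - 2)) :=
      mul_pos hb0 (by linarith)
    nlinarith [h2, h3]
  rw [hsum]
  exact hCF V R hR (δ * b) b hab
    (fun x y hx hy hxy => ⟨hge x y hx hy hxy, hle x y hx hy hxy⟩) k u v c huu hvv huv hc hineq

end Pool.Agent.Q22.PK
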