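import Pool.Agent.Q22.PK.Stm

/-! # Project PK: COM (helper65). The map `W` is a cometric. -/

set_option autoImplicit false

open Bundle Manifold ContDiff
open scoped Topology

noncomputable section

namespace Pool.Agent.Q22.PK

open Pool.Agent.H821R2 Pool.Agent.H893R5.HO

namespace COM

theorem W_apply {d : ℕ} (J : EE d →L[ℝ] EE d) (t : ℝ) (z a : EE d) :
    W J t z a = (1 + inner ℝ z z / 3 : ℝ) • a - (1 / 3 : ℝ) • ((inner ℝ z a : ℝ) • z) -
      t • ((inner ℝ (J z) a : ℝ) • J z) := rfl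

theorem gen_smooth {V : Type*} [NormedAddCommGroup V] [InnerProductSpace ℝ V] (J : V →L[ℝ] V) (t : ℝ)
    (a : V) : ContDiff ℝ ∞ fun z : V => (1 + inner ℝ z z / 3 : ℝ) • a -
      (1 / 3 : ℝ) • ((inner ℝ z a : ℝ) • z) - t • ((inner ℝ (J z) a : ℝ) • J z) := by
  have h0 : ContDiff ℝ ∞ fun z : V => z := contDiff_id
  have hJ : ContDiff ℝ ∞ fun z : V => J z := J.contDiff
  have hc : ContDiff ℝ ∞ fun _ : V => a := contDiff_const
  have h1 : ContDiff ℝ ∞ fun z : V => (inner ℝ z z : ℝ) := h0.inner ℝ h0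
  have h2 : ContDiff ℝ ∞ fun z : V => (inner ℝ z a : ℝ) := h0.inner ℝ hc
  have h3 : ContDiff ℝ ∞ fun z : V => (inner ℝ (J z) a : ℝ) := hJ.inner ℝ hc
  have h4 : ContDiff ℝ ∞ fun z : V => (1 + inner ℝ z z / 3 : ℝ) • a :=
    (contDiff_const.add (h1.div_const 3)).smul hc
  have h5 : ContDiff ℝ ∞ fun z : V => (1 / 3 : ℝ) • ((inner ℝ z a : ℝ) • z) := (h2.smul h0).const_smul _
  have h6 : ContDiff ℝ ∞ fun z : V => t • ((inner ℝ (J z) a : ℝ) • J z) := (h3.smul hJ).const_smul _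
  exact (h4.sub h5).sub h6

theorem W_smooth {d : ℕ} (J : EE d →L[ℝ] EE d) (t : ℝ) : ContDiff ℝ ∞ (W J t) :=
  contDiff_clm_apply_iff.2 fun a => gen_smooth J t a

theorem W_inner {d : ℕ} (J : EE d →L[ℝ] EE d) (t : ℝ) (z a b : EE d) :
    inner ℝ (W J t z a) b = (1 + inner ℝ z z / 3) * inner ℝ a b -
      1 / 3 * (inner ℝ z a * inner ℝ z b) - t * (inner ℝ (J z) a * inner ℝ (J z) b) := by
  rw [W_apply, inner_sub_left, inner_sub_left, inner_smul_left, inner_smul_left, inner_smul_left,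
    inner_smul_left, inner_smul_left]
  simp only [conj_trivial]

theorem W_symm {d : ℕ} (J : EE d →L[ℝ] EE d) (t : ℝ) (z a b : EE d) :
    inner ℝ (W J t z a) b = (inner ℝ a (W J t z b) : ℝ) := by
  rw [real_inner_comm (W J t z b) a, W_inner, W_inner, real_inner_comm b a]
  ring

theorem W_pos {d : ℕ} {J : EE d →L[ℝ] EE d} (hJ : ∀ x, ‖J x‖ ≤ ‖x‖) {t : ℝ} (ht0 : 0 ≤ t)
    (ht : t ≤ 1 / 3) {z a : EE d} (hz : ‖z‖ < 1) (ha : a ≠ 0) : 0 < (inner ℝ a (W J t z a) : ℝ) := by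
  rw [← W_symm, W_inner, real_inner_self_eq_norm_sq, real_inner_self_eq_norm_sq]
  have h1 : 0 < ‖a‖ := norm_pos_iff.2 ha
  have h2 : (inner ℝ z a : ℝ) * inner ℝ z a ≤ ‖z‖ ^ 2 * ‖a‖ ^ 2 := by
    have h := abs_real_inner_le_norm z a
    have h' := mul_self_le_mul_self (abs_nonneg _) h
    rw [abs_mul_abs_self] at h'
    linarith
  have h3 : (inner ℝ (J z) a : ℝ) * inner ℝ (J z) a ≤ ‖a‖ ^ 2 := by
    have h := abs_real_inner_le_norm (J z) a
    have hJz : ‖J z‖ * ‖a‖ ≤ 1 * ‖a‖ :=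
      mul_le_mul_of_nonneg_right ((hJ z).trans hz.le) h1.le
    have h' := mul_self_le_mul_self (abs_nonneg _) (h.trans hJz)
    rw [abs_mul_abs_self] at h'
    linarith
  have h4 : t * ((inner ℝ (J z) a : ℝ) * inner ℝ (J z) a) ≤ t * ‖a‖ ^ 2 :=
    mul_le_mul_of_nonneg_left h3 ht0
  have h5 : 0 < ‖a‖ ^ 2 := by positivity
  nlinarith

end COM

/-- COM -/
theorem t_COM : S_COM := by
  intro d X r c hX hr J e hJ t ht0 ht
  refine ⟨COM.W_smooth J t, fun z a b => ?_, fun p a => hX.P_eq _ _, fun p a _ ha => ?_⟩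
  · rw [hX.B_eq, hX.B_eq]
    exact COM.W_symm J t z a b
  · rw [hX.B_eq]
    exact COM.W_pos hJ.norm_le ht0 ht ((hX.small p).trans_le hr) ha

end Pool.Agent.Q22.PK
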