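import Pool.Agent.Q22.PK.Stm

/-!
# Project PK (helper22), MP_c9e91a_gt: lemma `EMB`

The map `j z = (r / √(1 + |z|²)) z`, a diffeomorphism of `ℝ^d` onto the open ball of radius `r`, as ambient data.
-/

set_option autoImplicit false

open Bundle Manifold ContDiff
open scoped Topology

noncomputable section

namespace Pool.Agent.Q22.PK

open Pool.Agent.H821R2 Pool.Agent.H893R5.HO

namespace EMB

variable {d : ℕ}

/-- the map onto the ball -/
def jj (r : ℝ) (z : EE d) : EE d := (r * (√(1 + ‖z‖ ^ 2))⁻¹) • z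

theorem s_pos (z : EE d) : 0 < √(1 + ‖z‖ ^ 2) := Real.sqrt_pos.2 (by positivity)

theorem s_sq (z : EE d) : √(1 + ‖z‖ ^ 2) ^ 2 = 1 + ‖z‖ ^ 2 := Real.sq_sqrt (by positivity)

theorem contDiff_jj (r : ℝ) : ContDiff ℝ ∞ (jj (d := d) r) := by
  unfold jj
  refine ContDiff.smul (contDiff_const.mul (ContDiff.inv (ContDiff.sqrt
    (contDiff_const.add (contDiff_norm_sq ℝ)) fun z => ?_) fun z => (s_pos z).ne')) contDiff_id
  positivity

/-- the derivative -/
def dj (r : ℝ) (z : EE d) : EE d →L[ℝ] EE d :=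
  (r * (√(1 + ‖z‖ ^ 2))⁻¹) • ContinuousLinearMap.id ℝ (EE d) +
    (-(r * ((√(1 + ‖z‖ ^ 2))⁻¹) ^ 3) • (innerSL ℝ z)).smulRight z

theorem hasFDerivAt_jj (r : ℝ) (z : EE d) : HasFDerivAt (jj (d := d) r) (dj r z) z := by
  have h1 : HasFDerivAt (fun z : EE d => 1 + ‖z‖ ^ 2) (2 • (innerSL ℝ z)) z :=
    (hasStrictFDerivAt_norm_sq z).hasFDerivAt.const_add 1
  have h2 := h1.sqrt (by positivity)
  have h3 := (hasDerivAt_inv (s_pos z).ne').comp_hasFDerivAt z h2
  have h4 := (h3.const_mul r).smul (hasFDerivAt_id z)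
  refine h4.congr_fderiv ?_
  ext v : 1
  simp only [dj, add_apply, smul_apply,
    ContinuousLinearMap.smulRight_apply, Function.comp, ContinuousLinearMap.id_apply, id]
  congr 1
  congr 1
  simp only [nsmul_eq_mul, smul_eq_mul]
  have := (s_pos z).ne'
  field_simp
  simp

theorem inner_dj (r : ℝ) (z v : EE d) :
    inner ℝ (dj r z v) v =
      r * ((√(1 + ‖z‖ ^ 2))⁻¹) ^ 3 * ((1 + ‖z‖ ^ 2) * ‖v‖ ^ 2 - (inner ℝ z v : ℝ) ^ 2) := by
  have hs := (s_pos z).ne'
  have h := s_sq z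
  simp only [dj, add_apply, smul_apply,
    ContinuousLinearMap.smulRight_apply, ContinuousLinearMap.id_apply, inner_add_left, inner_smul_left,
    real_inner_self_eq_norm_sq, innerSL_apply_apply, smul_eq_mul, RCLike.conj_to_real]
  generalize hS : √(1 + ‖z‖ ^ 2) = S at hs h ⊢
  rw [← h]
  field_simp
  ring

theorem dj_inj {r : ℝ} (hr : 0 < r) (z v : EE d) (h : dj r z v = 0) : v = 0 := by
  have h1 := inner_dj r z v
  rw [h, inner_zero_left] at h1
  have h2 : 0 < r * ((√(1 + ‖z‖ ^ 2))⁻¹) ^ 3 := by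
    have := s_pos z
    positivity
  have h3 : (1 + ‖z‖ ^ 2) * ‖v‖ ^ 2 - (inner ℝ z v : ℝ) ^ 2 = 0 := by
    rcases mul_eq_zero.1 h1.symm with h | h
    · exact absurd h h2.ne'
    · exact h
  have h4 : (inner ℝ z v : ℝ) ^ 2 ≤ ‖z‖ ^ 2 * ‖v‖ ^ 2 := by
    rw [← mul_pow]
    exact sq_le_sq' (neg_le_of_abs_le (abs_real_inner_le_norm z v))
      (le_of_abs_le (abs_real_inner_le_norm z v))
  have h5 : ‖v‖ ^ 2 ≤ 0 := by nlinarith
  have h6 : ‖v‖ = 0 := (pow_eq_zero_iff two_ne_zero).1 (le_antisymm h5 (sq_nonneg ‖v‖))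
  exact norm_eq_zero.1 h6

theorem norm_jj_lt {r : ℝ} (hr : 0 < r) (z : EE d) : ‖jj r z‖ < r := by
  have hs := s_pos z
  have h := s_sq z
  rw [jj, norm_smul, Real.norm_of_nonneg (by positivity)]
  rw [mul_assoc]
  have : (√(1 + ‖z‖ ^ 2))⁻¹ * ‖z‖ < 1 := by
    rw [inv_mul_lt_iff₀ hs, mul_one]
    exact Real.lt_sqrt_of_sq_lt (by linarith)
  nlinarith

theorem jj_zero (r : ℝ) : jj r (0 : EE d) = 0 := by simp [jj]

theorem dj_zero (r : ℝ) (v : EE d) : dj r (0 : EE d) v = r • v := by simp [dj]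

theorem dj_surj {r : ℝ} (hr : 0 < r) (z a : EE d) : ∃ v, dj r z v = a := by
  have hi : Function.Injective (dj (d := d) r z).toLinearMap := by
    refine (injective_iff_map_eq_zero _).2 fun v hv => dj_inj hr z v hv
  exact (LinearMap.injective_iff_surjective.1 hi) a

theorem mv {r : ℝ} (z : EE d) (v : TangentSpace (𝓡 d) z) :
    mvfderiv (𝓡 d) (jj (d := d) r) z v = dj r z v := by
  have h := (hasFDerivAt_jj r z).fderiv
  rw [← h]
  have h2 : mfderiv (𝓡 d) 𝓘(ℝ, EE d) (jj (d := d) r) z = fderiv ℝ (jj (d := d) r) z := mfderiv_eq_fderiv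
  exact congrArg (fun T => T v) h2

/-- the ambient data -/
def em {r : ℝ} (hr : 0 < r) : Emb (𝓡 d) (EE d) (EE d) where
  B := innerSL ℝ
  Bsymm := fun a b => real_inner_comm b a
  Bpos := fun a ha => real_inner_self_pos.2 ha
  j := jj r
  hj := (contDiff_jj r).contMDiff
  inj := fun p v h => dj_inj hr p v ((mv p v).symm.trans h)
  P := fun _ => ContinuousLinearMap.id ℝ (EE d)
  hP := contDiff_const
  Psymm := fun p a b => rfl
  Pd := fun p v => rfl
  rng := fun p a => by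
    obtain ⟨v, hv⟩ := dj_surj hr p a
    exact ⟨v, (mv p v).trans hv⟩

end EMB

theorem t_EMB : S_EMB := fun _ _ r hr =>
  ⟨EMB.em hr, r, fun _ _ => rfl, fun _ _ => rfl, fun p => EMB.norm_jj_lt hr p, EMB.jj_zero r, hr,
    fun v => (EMB.mv 0 v).trans (EMB.dj_zero r v)⟩

end Pool.Agent.Q22.PK
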