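import Pool.Agent.Q22.PK.Stm

/-!
# Project PK, job JEX (helper203): a skew map with `⌊d / 2⌋` planes
-/

set_option autoImplicit false

noncomputable section

namespace Pool.Agent.Q22.PK.JEX

open Pool.Agent.Q22.PK

variable {d : ℕ}

/-- the involution of the indices -/
def sg (d : ℕ) (k : Fin d) : Fin d :=
  if h : (k : ℕ) < d / 2 then ⟨k + d / 2, by omega⟩
  else if h' : (k : ℕ) < 2 * (d / 2) then ⟨k - d / 2, by omega⟩ else k

/-- the signs -/
def sc (d : ℕ) (k : Fin d) : ℝ :=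
  if (k : ℕ) < d / 2 then -1 else if (k : ℕ) < 2 * (d / 2) then 1 else 0

lemma sg_val (k : Fin d) : (sg d k : ℕ) =
    if (k : ℕ) < d / 2 then (k : ℕ) + d / 2 else if (k : ℕ) < 2 * (d / 2) then (k : ℕ) - d / 2
      else (k : ℕ) := by
  unfold sg
  split_ifs <;> rfl

lemma sg_sg (k : Fin d) : sg d (sg d k) = k := by
  apply Fin.ext
  rw [sg_val, sg_val]
  split_ifs <;> omega

lemma sc_sg (k : Fin d) : sc d (sg d k) = - sc d k := by
  unfold sc
  rw [sg_val]
  split_ifs <;> first | omega | norm_num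

lemma sc_sq_le (k : Fin d) : sc d k ^ 2 ≤ 1 := by
  unfold sc
  split_ifs <;> norm_num

/-- the involution as a permutation -/
def sgE (d : ℕ) : Equiv.Perm (Fin d) := ⟨sg d, sg d, sg_sg, sg_sg⟩

/-- the map, linear -/
def Jl (d : ℕ) : EE d →ₗ[ℝ] EE d where
  toFun x := WithLp.toLp 2 (fun k => sc d k * x (sg d k))
  map_add' x y := by
    ext k
    simp [mul_add]
  map_smul' c x := by
    ext k
    simp
    ring

/-- the map -/
def Jc (d : ℕ) : EE d →L[ℝ] EE d := (Jl d).toContinuousLinearMap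

lemma Jc_apply (x : EE d) (k : Fin d) : Jc d x k = sc d k * x (sg d k) := rfl

/-- the vectors -/
def ev (d : ℕ) (i : Fin (d / 2)) : EE d :=
  EuclideanSpace.single (⟨i, by omega⟩ : Fin d) (1 : ℝ)

lemma ev_apply (i : Fin (d / 2)) (k : Fin d) : ev d i k = if (k : ℕ) = i then 1 else 0 := by
  unfold ev
  rw [PiLp.single_apply]
  congr 1
  simp [Fin.ext_iff]

lemma inner_eq (x y : EE d) : inner ℝ x y = ∑ k, x k * y k := by
  rw [PiLp.inner_apply]
  refine Finset.sum_congr rfl fun k _ => ?_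
  simp [mul_comm]

theorem isJ (d : ℕ) : IsJ (Jc d) (ev d) where
  skew x y := by
    rw [inner_eq, inner_eq, ← Finset.sum_neg_distrib, ← Equiv.sum_comp (sgE d)]
    refine Finset.sum_congr rfl fun k _ => ?_
    change Jc d x (sg d k) * y (sg d k) = - (x k * Jc d y k)
    rw [Jc_apply, Jc_apply, sg_sg, sc_sg]
    ring
  norm_le x := by
    rw [EuclideanSpace.norm_eq, EuclideanSpace.norm_eq]
    apply Real.sqrt_le_sqrt
    rw [← Equiv.sum_comp (sgE d) (fun i => ‖x i‖ ^ 2)]
    refine Finset.sum_le_sum fun k _ => ?_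
    change ‖Jc d x k‖ ^ 2 ≤ ‖x (sg d k)‖ ^ 2
    rw [Jc_apply, norm_mul, mul_pow]
    have h := sc_sq_le (d := d) k
    have h2 : ‖sc d k‖ ^ 2 ≤ 1 := by rwa [Real.norm_eq_abs, sq_abs]
    nlinarith [sq_nonneg ‖x (sg d k)‖]
  ee i j := by
    rw [inner_eq, Finset.sum_eq_single (⟨i, by omega⟩ : Fin d)]
    · rw [ev_apply, ev_apply]
      by_cases h : i = j
      · subst h; simp
      · have : (i : ℕ) ≠ j := fun h' => h (Fin.ext h')
        simp [h, this]
    · intro k _ hk
      rw [ev_apply, if_neg (fun h => hk (Fin.ext h)), zero_mul]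
    · intro h; exact absurd (Finset.mem_univ _) h
  eJ i j := by
    rw [inner_eq]
    refine Finset.sum_eq_zero fun k _ => ?_
    rw [Jc_apply, ev_apply, ev_apply, sg_val]
    have := i.2
    have := j.2
    split_ifs <;> first | omega | simp
  JJ i := by
    ext k
    change Jc d (Jc d (ev d i)) k = - (ev d i k)
    rw [Jc_apply, Jc_apply, sg_sg, sc_sg, ev_apply]
    have := i.2
    unfold sc
    split_ifs <;> first | omega | norm_num

end Pool.Agent.Q22.PK.JEX

namespace Pool.Agent.Q22.PK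

/-- **JEX** -/
theorem t_JEX : S_JEX := fun d => ⟨JEX.Jc d, JEX.ev d, JEX.isJ d⟩

end Pool.Agent.Q22.PK
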