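import Pool.Agent.Q22.PK.Stm

/-!
# Project PK (helper22), job KZE: the curvature expression at the origin
-/

set_option autoImplicit false

open Bundle Manifold ContDiff
open scoped Topology

noncomputable section

namespace Pool.Agent.Q22.PK

namespace KZE

variable {d : ℕ}

theorem W_apply (J : EE d →L[ℝ] EE d) (t : ℝ) (z a : EE d) : W J t z a =
    (1 + inner ℝ z z / 3 : ℝ) • a - (1 / 3 : ℝ) • ((inner ℝ z a : ℝ) • z) -
      t • ((inner ℝ (J z) a : ℝ) • J z) := by
  simp [W]

theorem W_zero (J : EE d →L[ℝ] EE d) (t : ℝ) (a : EE d) : W J t 0 a = a := by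
  rw [W_apply]
  simp

theorem W1_zero (J : EE d →L[ℝ] EE d) (t : ℝ) (h b : EE d) : W1 J t 0 h b = 0 := by
  simp [W1]

theorem nn_zero (J : EE d →L[ℝ] EE d) (t : ℝ) (a b : EE d) : nn J t 0 a b = 0 := by
  simp [nn]

theorem DD_zero (J : EE d →L[ℝ] EE d) (t : ℝ) (c e a b : EE d) :
    DD J t 0 c e a b = inner ℝ a (W1 J t c e b) := by
  rw [DD, W_zero, W_zero, W1_zero, inner_zero_right, add_zero]

theorem W1_inner (J : EE d →L[ℝ] EE d) (t : ℝ) (a z h b : EE d) : inner ℝ a (W1 J t z h b) =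
    2 / 3 * inner ℝ z h * inner ℝ a b - 1 / 3 * (inner ℝ h b * inner ℝ a z + inner ℝ z b * inner ℝ a h) -
      t * (inner ℝ (J h) b * inner ℝ a (J z) + inner ℝ (J z) b * inner ℝ a (J h)) := by
  simp only [W1, inner_sub_right, inner_add_right, inner_smul_right]

end KZE

theorem t_KZE : S_KZE := by
  intro d J e hJ t a b
  refine ⟨?_, ?_, KZE.W_zero J t a⟩
  · have hs : ∀ x y : EE d, inner ℝ x (J y) = - inner ℝ (J x) y := fun x y => by
      rw [hJ.skew]; ring
    have hxx : ∀ x : EE d, inner ℝ (J x) x = (0 : ℝ) := fun x => by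
      have h1 := hJ.skew x x
      rw [real_inner_comm (J x) x] at h1
      linarith
    have hba : inner ℝ (J b) a = - inner ℝ (J a) b := by
      rw [hJ.skew, real_inner_comm]
    simp only [PE, KZE.DD_zero, KZE.W_zero, KZE.W1_zero, KZE.nn_zero, BB, KZE.W1_inner, K0, hs, hxx, hba,
      real_inner_comm b a, sub_self, inner_zero_right]
    ring
  · simp [BB, KZE.W1_zero]

end Pool.Agent.Q22.PK
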