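import Pool.Agent.Q22.PK.Stm

/-!
# Project PK (helper22): `S_LOC`, near `0` the curvature is nearly that of `0` (helper87)
-/

set_option autoImplicit false

open Bundle Manifold ContDiff Pool.Agent.H821R2 Pool.Agent.H893R5.HO
open scoped Topology

noncomputable section

namespace Pool.Agent.Q22.PK.LOC

variable {d : ℕ}

theorem W_apply (J : EE d →L[ℝ] EE d) (t : ℝ) (z a : EE d) :
    W J t z a = (1 + inner ℝ z z / 3 : ℝ) • a - (1 / 3 : ℝ) • ((inner ℝ z a : ℝ) • z) -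
      t • ((inner ℝ (J z) a : ℝ) • J z) := by
  simp [W, ContinuousLinearMap.smulRight_apply]

section cont

variable {X : Type} [TopologicalSpace X] {J : EE d →L[ℝ] EE d} {t : ℝ}

theorem cW {f g : X → EE d} (hf : Continuous f) (hg : Continuous g) :
    Continuous fun p => W J t (f p) (g p) := by
  simp only [W_apply]
  have h1 : Continuous fun p => J (f p) := J.continuous.comp hf
  fun_prop

theorem cW1 {f g h : X → EE d} (hf : Continuous f) (hg : Continuous g) (hh : Continuous h) :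
    Continuous fun p => W1 J t (f p) (g p) (h p) := by
  unfold W1
  have h1 : Continuous fun p => J (f p) := J.continuous.comp hf
  have h2 : Continuous fun p => J (g p) := J.continuous.comp hg
  fun_prop

theorem cnn {f g h : X → EE d} (hf : Continuous f) (hg : Continuous g) (hh : Continuous h) :
    Continuous fun p => nn J t (f p) (g p) (h p) := by
  unfold nn
  have h1 : Continuous fun p => J (f p) := J.continuous.comp hf
  have h2 : Continuous fun p => J (g p) := J.continuous.comp hg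
  have h3 : Continuous fun p => J (h p) := J.continuous.comp hh
  fun_prop

theorem cBB {f g h : X → EE d} (hf : Continuous f) (hg : Continuous g) (hh : Continuous h) :
    Continuous fun p => BB J t (f p) (g p) (h p) := by
  unfold BB
  exact (cW1 hh (cW hh hf) hg).sub (cW1 hh (cW hh hg) hf)

theorem cDD {z c e a b : X → EE d} (hz : Continuous z) (hc : Continuous c) (he : Continuous e)
    (ha : Continuous a) (hb : Continuous b) :
    Continuous fun p => DD J t (z p) (c p) (e p) (a p) (b p) := by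
  unfold DD
  exact (ha.inner (cW1 (cW hz hc) (cW hz he) hb)).add
    (ha.inner (cW1 hz (cW1 hz (cW hz hc) he) hb))

theorem cPE {z a b γ : X → EE d} (hz : Continuous z) (ha : Continuous a) (hb : Continuous b)
    (hγ : Continuous γ) : Continuous fun p => PE J t (z p) (a p) (b p) (γ p) := by
  unfold PE
  have h1 := cDD (J := J) (t := t) hz ha ha hb hb
  have h2 := cDD (J := J) (t := t) hz hb hb ha ha
  have h3 := cDD (J := J) (t := t) hz ha hb ha hb
  have h4 := cDD (J := J) (t := t) hz hb ha ha hb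
  have h5 : Continuous fun p => (inner ℝ (a p) (W1 J t (z p) (W J t (z p) (nn J t (z p) (b p) (b p))) (a p)) : ℝ) :=
    ha.inner (cW1 hz (cW hz (cnn hz hb hb)) ha)
  have h6 : Continuous fun p => (inner ℝ (a p) (W1 J t (z p) (W J t (z p) (nn J t (z p) (a p) (b p))) (b p)) : ℝ) :=
    ha.inner (cW1 hz (cW hz (cnn hz ha hb)) hb)
  have h7 : Continuous fun p => (inner ℝ (γ p) (W J t (z p) (γ p)) : ℝ) := hγ.inner (cW hz hγ)
  have h8 : Continuous fun p => (inner ℝ (γ p) (BB J t (a p) (b p) (z p)) : ℝ) :=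
    hγ.inner (cBB ha hb hz)
  fun_prop

end cont

/-- the cometric is bounded from below -/
theorem W_ge {J : EE d →L[ℝ] EE d} {e : Fin (d / 2) → EE d} (hJ : IsJ J e) {t : ℝ} (ht : 0 < t)
    (ht3 : t < 1 / 3) {z : EE d} (hz : ‖z‖ ≤ 1) (a : EE d) :
    2 / 3 * ‖a‖ ^ 2 ≤ inner ℝ a (W J t z a) := by
  have h0 : inner ℝ a (W J t z a) = (1 + ‖z‖ ^ 2 / 3) * ‖a‖ ^ 2 - 1 / 3 * (inner ℝ z a : ℝ) ^ 2 -
      t * (inner ℝ (J z) a : ℝ) ^ 2 := by
    rw [W_apply]
    simp only [inner_sub_right, inner_smul_right, real_inner_self_eq_norm_sq]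
    rw [real_inner_comm z a, real_inner_comm (J z) a]
    ring
  rw [h0]
  have h1 : (inner ℝ z a : ℝ) ^ 2 ≤ ‖z‖ ^ 2 * ‖a‖ ^ 2 := by
    rw [← mul_pow, ← sq_abs]
    exact pow_le_pow_left₀ (abs_nonneg _) (abs_real_inner_le_norm z a) 2
  have h2 : (inner ℝ (J z) a : ℝ) ^ 2 ≤ 1 * ‖a‖ ^ 2 := by
    have h3 : (inner ℝ (J z) a : ℝ) ^ 2 ≤ ‖J z‖ ^ 2 * ‖a‖ ^ 2 := by
      rw [← mul_pow, ← sq_abs]
      exact pow_le_pow_left₀ (abs_nonneg _) (abs_real_inner_le_norm (J z) a) 2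
    refine h3.trans (mul_le_mul_of_nonneg_right ?_ (sq_nonneg _))
    have h4 := hJ.norm_le z
    have h5 := norm_nonneg (J z)
    nlinarith
  have h6 := sq_nonneg ‖a‖
  have h7 : t * (inner ℝ (J z) a : ℝ) ^ 2 ≤ 1 / 3 * ‖a‖ ^ 2 := by
    calc t * (inner ℝ (J z) a : ℝ) ^ 2 ≤ t * (1 * ‖a‖ ^ 2) := mul_le_mul_of_nonneg_left h2 ht.le
      _ ≤ 1 / 3 * ‖a‖ ^ 2 := by nlinarith
  nlinarith

/-- the value at `0` -/
theorem at_zero (hK : S_KZE) {J : EE d →L[ℝ] EE d} {e : Fin (d / 2) → EE d} (hJ : IsJ J e) {t : ℝ}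
    (ht : 0 < t) {a b γ : EE d} (h1 : inner ℝ a (W J t 0 a) = (1 : ℝ))
    (h2 : inner ℝ b (W J t 0 b) = (1 : ℝ)) (h3 : inner ℝ a (W J t 0 b) = (0 : ℝ))
    (h4 : W J t 0 γ = BB J t a b 0) : 1 - 3 * t ≤ PE J t 0 a b γ ∧ PE J t 0 a b γ ≤ 1 := by
  obtain ⟨k1, k2, -⟩ := hK d J e hJ t a b
  have k3 : ∀ x : EE d, W J t 0 x = x := fun x => (hK d J e hJ t x x).2.2
  rw [k3] at h1 h2 h3 h4
  rw [k2] at h4
  rw [h4, k1]
  unfold K0
  rw [h1, h2, h3]
  have h5 : (inner ℝ (J a) b : ℝ) ^ 2 ≤ 1 := by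
    have na : ‖a‖ = 1 := by
      rw [real_inner_self_eq_norm_sq] at h1
      nlinarith [norm_nonneg a]
    have nb : ‖b‖ = 1 := by
      rw [real_inner_self_eq_norm_sq] at h2
      nlinarith [norm_nonneg b]
    have h6 : |(inner ℝ (J a) b : ℝ)| ≤ 1 := by
      refine (abs_real_inner_le_norm (J a) b).trans ?_
      rw [nb, mul_one, ← na]
      exact hJ.norm_le a
    rw [← sq_abs]
    exact pow_le_one₀ (abs_nonneg _) h6
  have h7 := sq_nonneg (inner ℝ (J a) b : ℝ)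
  constructor <;> nlinarith

end Pool.Agent.Q22.PK.LOC

namespace Pool.Agent.Q22.PK

open LOC

theorem t_LOC : S_LOC := by
  intro hK d J e hJ t ht ht3 η hη
  -- the bound of the brackets
  obtain ⟨C, hC⟩ : ∃ C : ℝ, ∀ z a b : EE d, ‖z‖ ≤ 1 → ‖a‖ ≤ 2 → ‖b‖ ≤ 2 → ‖BB J t a b z‖ ≤ C := by
    have hc : IsCompact (Metric.closedBall (0 : EE d) 1 ×ˢ (Metric.closedBall (0 : EE d) 2 ×ˢ
        Metric.closedBall (0 : EE d) 2)) :=
      (isCompact_closedBall 0 1).prod ((isCompact_closedBall 0 2).prod (isCompact_closedBall 0 2))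
    have hcont : Continuous fun p : EE d × EE d × EE d => BB J t p.2.1 p.2.2 p.1 :=
      cBB (continuous_fst.comp continuous_snd) (continuous_snd.comp continuous_snd) continuous_fst
    obtain ⟨C, hC⟩ := hc.exists_bound_of_continuousOn hcont.continuousOn
    refine ⟨C, fun z a b h1 h2 h3 => hC (z, a, b) ⟨?_, ?_, ?_⟩⟩ <;> simpa
  -- bounds for the vectors
  have hb : ∀ z a : EE d, ‖z‖ ≤ 1 → inner ℝ a (W J t z a) = (1 : ℝ) → ‖a‖ ≤ 2 := by
    intro z a hz h1
    have h2 := W_ge hJ ht ht3 hz a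
    rw [h1] at h2
    nlinarith [norm_nonneg a]
  have hg : ∀ z a b γ : EE d, ‖z‖ ≤ 1 → ‖a‖ ≤ 2 → ‖b‖ ≤ 2 → W J t z γ = BB J t a b z →
      ‖γ‖ ≤ 3 / 2 * C := by
    intro z a b γ hz ha hb h1
    have h2 := W_ge hJ ht ht3 hz γ
    rw [h1] at h2
    have h3 := hC z a b hz ha hb
    have h4 : (inner ℝ γ (BB J t a b z) : ℝ) ≤ ‖γ‖ * C :=
      (real_inner_le_norm _ _).trans (mul_le_mul_of_nonneg_left h3 (norm_nonneg _))
    rcases eq_or_lt_of_le (norm_nonneg γ) with h5 | h5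
    · rw [← h5]
      have := (norm_nonneg _).trans h3
      positivity
    · have h6 : 2 / 3 * ‖γ‖ ^ 2 ≤ ‖γ‖ * C := h2.trans h4
      have h7 : ‖γ‖ * (2 / 3 * ‖γ‖) ≤ ‖γ‖ * C := by linarith [h6]
      have h8 := le_of_mul_le_mul_left h7 h5
      linarith
  -- the compact set of the bad points
  let S : Set (EE d × EE d × EE d × EE d) := {p | (inner ℝ p.2.1 (W J t p.1 p.2.1) = (1 : ℝ) ∧
    inner ℝ p.2.2.1 (W J t p.1 p.2.2.1) = (1 : ℝ) ∧ inner ℝ p.2.1 (W J t p.1 p.2.2.1) = (0 : ℝ) ∧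
    W J t p.1 p.2.2.2 = BB J t p.2.1 p.2.2.1 p.1) ∧
    (PE J t p.1 p.2.1 p.2.2.1 p.2.2.2 ≤ 1 - 3 * t - η ∨
      1 + η ≤ PE J t p.1 p.2.1 p.2.2.1 p.2.2.2)}
  let c1 : Continuous fun p : EE d × EE d × EE d × EE d => p.1 := continuous_fst
  have c2 : Continuous fun p : EE d × EE d × EE d × EE d => p.2.1 := continuous_fst.comp continuous_snd
  have c3 : Continuous fun p : EE d × EE d × EE d × EE d => p.2.2.1 :=
    continuous_fst.comp (continuous_snd.comp continuous_snd)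
  have c4 : Continuous fun p : EE d × EE d × EE d × EE d => p.2.2.2 :=
    continuous_snd.comp (continuous_snd.comp continuous_snd)
  have hS : IsClosed S := by
    refine IsClosed.inter ?_ ?_
    · refine IsClosed.inter (isClosed_eq (c2.inner (cW c1 c2)) continuous_const) ?_
      refine IsClosed.inter (isClosed_eq (c3.inner (cW c1 c3)) continuous_const) ?_
      refine IsClosed.inter (isClosed_eq (c2.inner (cW c1 c3)) continuous_const) ?_
      exact isClosed_eq (cW c1 c4) (cBB c2 c3 c1)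
    · exact (isClosed_le (cPE c1 c2 c3 c4) continuous_const).union
        (isClosed_le continuous_const (cPE c1 c2 c3 c4))
  let B : Set (EE d × EE d × EE d × EE d) := Metric.closedBall (0 : EE d) 1 ×ˢ
    (Metric.closedBall (0 : EE d) 2 ×ˢ (Metric.closedBall (0 : EE d) 2 ×ˢ
      Metric.closedBall (0 : EE d) (3 / 2 * C)))
  have hB : IsCompact B := (isCompact_closedBall 0 1).prod ((isCompact_closedBall 0 2).prod
    ((isCompact_closedBall 0 2).prod (isCompact_closedBall 0 _)))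
  have hSB : IsCompact (B ∩ S) := hB.inter_right hS
  have key : ∀ p ∈ B ∩ S, 0 < ‖p.1‖ := by
    rintro ⟨z, a, b, γ⟩ ⟨-, ⟨h1, h2, h3, h4⟩, h5⟩
    rw [norm_pos_iff]
    intro hz
    simp only at h1 h2 h3 h4 h5 hz
    subst hz
    obtain ⟨h6, h7⟩ := at_zero hK hJ ht h1 h2 h3 h4
    rcases h5 with h5 | h5 <;> linarith
  obtain ⟨r, hr0, hr1, hr⟩ : ∃ r : ℝ, 0 < r ∧ r ≤ 1 ∧ ∀ p ∈ B ∩ S, r ≤ ‖p.1‖ := by
    rcases (B ∩ S).eq_empty_or_nonempty with h0 | h0
    · exact ⟨1, one_pos, le_rfl, fun p hp => by rw [h0] at hp; exact hp.elim⟩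
    · obtain ⟨p, hp, hmin⟩ := hSB.exists_isMinOn h0 (c1.norm).continuousOn
      refine ⟨min 1 ‖p.1‖, lt_min one_pos (key p hp), min_le_left _ _, fun q hq =>
        (min_le_right _ _).trans (hmin hq)⟩
  refine ⟨r, hr0, hr1, fun z a b γ hz h1 h2 h3 h4 => ?_⟩
  have hz1 : ‖z‖ ≤ 1 := (hz.trans_le hr1).le
  have ha := hb z a hz1 h1
  have hbb := hb z b hz1 h2
  have hγ := hg z a b γ hz1 ha hbb h4
  have hmem : (z, a, b, γ) ∈ B := by
    refine ⟨?_, ?_, ?_, ?_⟩ <;> simpa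
  by_contra hcon
  have h5 : (z, a, b, γ) ∈ S := by
    refine ⟨⟨h1, h2, h3, h4⟩, ?_⟩
    rw [not_and_or, not_le, not_le] at hcon
    rcases hcon with h | h
    · exact Or.inl h.le
    · exact Or.inr h.le
  exact absurd (hr _ ⟨hmem, h5⟩) (not_le.2 hz)

end Pool.Agent.Q22.PK
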