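import Pool.Agent.Q22.PK.Stm

/-!
# Project PK (helper22), lemma job LOW: the lower bound, assembly
-/

set_option autoImplicit false

open Bundle Manifold ContDiff
open scoped Topology

noncomputable section

namespace Pool.Agent.Q22.PK

open Pool.Agent.H821R2 Pool.Agent.H893R5.HO

namespace LOW

theorem bet_eq (d : ℕ) (hd : 4 ≤ d) :
    bet d = 1 - 3 * (1 / (2 * ((d / 2 : ℕ) : ℝ) + 1)) := by
  have hm : (0 : ℝ) ≤ ((d / 2 : ℕ) : ℝ) := Nat.cast_nonneg _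
  have h : (2 * ((d / 2 : ℕ) : ℝ) + 1) ≠ 0 := by positivity
  unfold bet
  field_simp
  ring

end LOW

theorem t_LOW : S_LOW := by
  intro hJEX hKZE hLOC hEMB hCOM hPEX hPIN hZER hNEG hOPE d hd δ hδ hδb hF
  obtain ⟨J, e, hJ⟩ := hJEX d
  have hm : (0 : ℝ) ≤ ((d / 2 : ℕ) : ℝ) := Nat.cast_nonneg _
  set q : ℝ := 1 / (2 * ((d / 2 : ℕ) : ℝ) + 1) with hq
  have hpos : (0 : ℝ) < 2 * ((d / 2 : ℕ) : ℝ) + 1 := by positivity
  have hq0 : 0 < q := by rw [hq]; positivity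
  have hb : δ < 1 - 3 * q := by
    have := LOW.bet_eq d hd
    rw [this] at hδb
    exact hδb
  obtain ⟨t, ht⟩ : ∃ t : ℝ, t = (q + (1 - δ) / 3) / 2 := ⟨_, rfl⟩
  obtain ⟨η, hη⟩ : ∃ η : ℝ, η = (1 - 3 * t - δ) / 2 := ⟨_, rfl⟩
  have ht1 : q < t := by rw [ht]; linarith
  have ht2 : t < (1 - δ) / 3 := by rw [ht]; linarith
  have ht0 : 0 < t := by linarith
  have ht3 : t < 1 / 3 := by linarith
  have hη0 : 0 < η := by rw [hη]; linarith
  have hδ1 : δ < 1 := by linarith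
  have hδη : δ * (1 + η) ≤ 1 - 3 * t - η := by
    have h1 : δ * η ≤ 1 * η := mul_le_mul_of_nonneg_right hδ1.le hη0.le
    have h2 : 2 * η = 1 - 3 * t - δ := by rw [hη]; ring
    nlinarith
  have hl : 0 < 1 - 3 * t - η := lt_of_lt_of_le (by positivity) hδη
  have h1t : 1 < (2 * ((d / 2 : ℕ) : ℝ) + 1) * t := by
    have h2 : (2 * ((d / 2 : ℕ) : ℝ) + 1) * q = 1 := by
      rw [hq]; field_simp
    have h3 := mul_lt_mul_of_pos_left ht1 hpos
    linarith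
  obtain ⟨r, hr0, hr1, hr⟩ := hLOC hKZE d J e hJ t ht0 ht3 η hη0
  obtain ⟨X, c, hX⟩ := hEMB d hd r hr0
  have hW : X.Com (W J t) := hCOM d X r c hX hr1 J e hJ t ht0.le ht3.le
  haveI : Nonempty (Fin d) := ⟨⟨0, by omega⟩⟩
  haveI : Nontrivial (EE d) := inferInstance
  obtain ⟨g, hg⟩ := Emb.exists_metric hW
  obtain ⟨cov, R, hLC, hR⟩ := Emb.exists_cov hW hg
  have hpin := hPIN hPEX d hd X r c hX J e hJ t hW (1 - 3 * t - η) (1 + η) δ hl hδ hδη hr g hg cov R hLC hR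
  have hzer := hZER hPEX hKZE d hd X r c hX J e hJ t hW g hg cov R hLC hR
  exact hOPE hNEG d hd c hX.c_pos J e hJ t h1t g cov R hLC hR (fun u v => (hzer u v).2)
    (hF (EE d) g cov R hLC hR hpin)

end Pool.Agent.Q22.PK
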