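import Pool.Agent.Q22.PK.Stm

/-! Project PK (helper22), job NEG (helper18): the polarisation of `K0` -/

set_option autoImplicit false

open Bundle Manifold ContDiff Pool.Agent.H821R2 Pool.Agent.H893R5.HO

noncomputable section

namespace Pool.Agent.Q22.PK.NEG

theorem Q4_eq {d : ℕ} {J : EE d →L[ℝ] EE d} (hJ : ∀ x y, inner ℝ (J x) y = - inner ℝ x (J y)) (t : ℝ)
    (x y z w : EE d) : Q4 J t x y z w =
      24 * (inner ℝ y z * inner ℝ x w - inner ℝ x z * inner ℝ y w -
        t * (inner ℝ (J y) z * inner ℝ (J x) w - inner ℝ (J x) z * inner ℝ (J y) w -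
          2 * inner ℝ (J x) y * inner ℝ (J z) w)) := by
  have hs : ∀ a b : EE d, inner ℝ (J a) b = - inner ℝ (J b) a := fun a b => by
    rw [hJ a b, real_inner_comm]
  have c1 : (inner ℝ y x : ℝ) = inner ℝ x y := real_inner_comm _ _
  have c2 : (inner ℝ z x : ℝ) = inner ℝ x z := real_inner_comm _ _
  have c3 : (inner ℝ w x : ℝ) = inner ℝ x w := real_inner_comm _ _
  have c4 : (inner ℝ z y : ℝ) = inner ℝ y z := real_inner_comm _ _
  have c5 : (inner ℝ w y : ℝ) = inner ℝ y w := real_inner_comm _ _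
  have c6 : (inner ℝ w z : ℝ) = inner ℝ z w := real_inner_comm _ _
  have s1 := hs y x
  have s3 := hs w x
  have s5 := hs w y
  have s6 := hs w z
  unfold Q4 K0
  simp only [map_add, map_sub, inner_add_left, inner_add_right, inner_sub_left, inner_sub_right,
    c1, c2, c3, c4, c5, c6, s1, s3, s5, s6]
  ring

end Pool.Agent.Q22.PK.NEG

namespace Pool.Agent.Q22.PK

theorem t_NEG : S_NEG := by
  intro d J e h t
  have key : ∀ i j, Q4 J t (e i) (J (e i)) (J (e j)) (e j) =
      24 * ((1 - t) * (if i = j then (1 : ℝ) else 0) - 2 * t) := by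
    intro i j
    have a1 : (inner ℝ (J (e i)) (J (e j)) : ℝ) = if i = j then 1 else 0 := by
      rw [h.skew, h.JJ, inner_neg_right, neg_neg, h.ee]
    have a2 : (inner ℝ (J (e i)) (J (e i)) : ℝ) = 1 := by
      rw [h.skew, h.JJ, inner_neg_right, neg_neg, h.ee, if_pos rfl]
    have a3 : (inner ℝ (J (e i)) (e j) : ℝ) = 0 := by
      rw [h.skew, h.eJ, neg_zero]
    rw [NEG.Q4_eq h.skew, a1, a2, a3, h.eJ, h.JJ, h.JJ, inner_neg_left, inner_neg_left,
      inner_neg_left, h.eJ, h.ee, h.ee, if_pos rfl]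
    split_ifs <;> ring
  simp only [key]
  simp only [← Finset.mul_sum, Finset.sum_sub_distrib, Finset.sum_const, Finset.card_univ,
    Fintype.card_fin, nsmul_eq_mul, Finset.sum_ite_eq, Finset.mem_univ, if_true]
  ring

end Pool.Agent.Q22.PK
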