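import Pool.Agent.Q22.PK.Stm

/-!
# Project PK, MP_c9e91a_gt, job OPE: the curvature operator is not positive at `0`
-/

set_option autoImplicit false
set_option synthInstance.maxHeartbeats 400000
set_option maxHeartbeats 4000000

open Bundle Manifold ContDiff
open scoped Topology

noncomputable section

namespace Pool.Agent.Q22.PK

open Pool.Agent.H821R2 Pool.Agent.H893R5.HO

namespace OPE

/-- Berger's polarisation identity for the Riemann tensor at a point -/
theorem polar {d : ℕ} (hd : 4 ≤ d)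
    {g : ContMDiffRiemannianMetric (𝓡 d) ∞ (EE d) (fun x : EE d => TangentSpace (𝓡 d) x)}
    {cov : CovariantDerivative (𝓡 d) (EE d) (TangentSpace (𝓡 d) : EE d → Type _)}
    {R : CurvField (𝓡 d) (EE d)} (h : IsLeviCivita g cov) (hR : IsRiemannTensor cov R)
    (p : EE d) (x y z w : TangentSpace (𝓡 d) p) :
    24 * g.inner p (R p x y z) w =
      (g.inner p (R p (x + w) (y + z) (y + z)) (x + w) -
        g.inner p (R p (x + w) (y - z) (y - z)) (x + w) -
        g.inner p (R p (x - w) (y + z) (y + z)) (x - w) +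
        g.inner p (R p (x - w) (y - z) (y - z)) (x - w)) -
      (g.inner p (R p (y + w) (x + z) (x + z)) (y + w) -
        g.inner p (R p (y + w) (x - z) (x - z)) (y + w) -
        g.inner p (R p (y - w) (x + z) (x + z)) (y - w) +
        g.inner p (R p (y - w) (x - z) (x - z)) (y - w)) := by
  have : Nonempty (Fin d) := ⟨⟨0, by omega⟩⟩
  have : Nontrivial (EE d) := inferInstance
  let _ : RiemannianBundle (fun x : EE d => TangentSpace (𝓡 d) x) := ⟨g.toRiemannianMetric⟩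
  have h' : IsLeviCivitaB cov := ⟨h.smooth, h.metric, h.torsionFree⟩
  exact berger_identity (isCurvatureTensor h' hR p) x y z w

/-- the form of `J` on the diagonal -/
theorem value {d : ℕ} (hd : 4 ≤ d) {c : ℝ} {J : EE d →L[ℝ] EE d} {t : ℝ}
    {g : ContMDiffRiemannianMetric (𝓡 d) ∞ (EE d) (fun x : EE d => TangentSpace (𝓡 d) x)}
    {cov : CovariantDerivative (𝓡 d) (EE d) (TangentSpace (𝓡 d) : EE d → Type _)}
    {R : CurvField (𝓡 d) (EE d)} (h : IsLeviCivita g cov) (hR : IsRiemannTensor cov R)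
    (hK : ∀ u v : EE d, g.inner (0 : EE d) (R (0 : EE d) u v v) u = c ^ 4 * K0 J t u v)
    (x y z w : EE d) :
    24 * g.inner (0 : EE d) (R (0 : EE d) x y z) w = c ^ 4 * Q4 J t x y z w := by
  have e := polar hd h hR (0 : EE d) x y z w
  have k1 := hK (x + w) (y + z)
  have k2 := hK (x + w) (y - z)
  have k3 := hK (x - w) (y + z)
  have k4 := hK (x - w) (y - z)
  have k5 := hK (y + w) (x + z)
  have k6 := hK (y + w) (x - z)
  have k7 := hK (y - w) (x + z)
  have k8 := hK (y - w) (x - z)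
  refine e.trans ?_
  rw [Q4]
  have e2 : ∀ a1 a2 a3 a4 a5 a6 a7 a8 b1 b2 b3 b4 b5 b6 b7 b8 : ℝ, a1 = c ^ 4 * b1 → a2 = c ^ 4 * b2 →
      a3 = c ^ 4 * b3 → a4 = c ^ 4 * b4 → a5 = c ^ 4 * b5 → a6 = c ^ 4 * b6 → a7 = c ^ 4 * b7 →
      a8 = c ^ 4 * b8 → (a1 - a2 - a3 + a4) - (a5 - a6 - a7 + a8) =
        c ^ 4 * ((b1 - b2 - b3 + b4) - (b5 - b6 - b7 + b8)) := by
    intro a1 a2 a3 a4 a5 a6 a7 a8 b1 b2 b3 b4 b5 b6 b7 b8 h1 h2 h3 h4 h5 h6 h7 h8
    rw [h1, h2, h3, h4, h5, h6, h7, h8]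
    ring
  exact e2 _ _ _ _ _ _ _ _ _ _ _ _ _ _ _ _ k1 k2 k3 k4 k5 k6 k7 k8

end OPE

/-- Job OPE: the curvature operator at `0` has a nonpositive value on `∑ e_i ∧ J e_i`. -/
theorem t_OPE : S_OPE := by
  intro hneg d hd c hc J e hJ t ht g cov R hLC hR hK hpos
  obtain ⟨B, hB, hBpos⟩ := hpos (0 : EE d)
  have hm : (0 : ℝ) < ((d / 2 : ℕ) : ℝ) := by
    have : 0 < d / 2 := by omega
    exact_mod_cast this
  set om : ⋀[ℝ]^2 (TangentSpace (𝓡 d) (0 : EE d)) :=
    ∑ i, exteriorPower.ιMulti ℝ 2 ![(e i : TangentSpace (𝓡 d) (0 : EE d)), J (e i)] with hom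
  have hval : 24 * B om om = c ^ 4 * (24 * (((d / 2 : ℕ) : ℝ) * (1 - (2 * ((d / 2 : ℕ) : ℝ) + 1) * t))) := by
    rw [← hneg d J e hJ t, hom]
    simp only [map_sum, LinearMap.sum_apply, Finset.mul_sum]
    rw [Finset.sum_comm]
    refine Finset.sum_congr rfl fun i _ => Finset.sum_congr rfl fun j _ => ?_
    have h1 := hB (e i) (J (e i)) (e j) (J (e j))
    have h2 := OPE.value hd hLC hR hK (e i) (J (e i)) (J (e j)) (e j)
    rw [← h2]
    exact congrArg (fun s => 24 * s) h1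
  have hneg2 : B om om < 0 := by
    have h4 : 0 < c ^ 4 := by positivity
    have h5 : ((d / 2 : ℕ) : ℝ) * (1 - (2 * ((d / 2 : ℕ) : ℝ) + 1) * t) < 0 :=
      mul_neg_of_pos_of_neg hm (by linarith)
    have h6 : c ^ 4 * (24 * (((d / 2 : ℕ) : ℝ) * (1 - (2 * ((d / 2 : ℕ) : ℝ) + 1) * t))) < 0 :=
      mul_neg_of_pos_of_neg h4 (by linarith)
    linarith
  by_cases h0 : om = 0
  · rw [h0] at hneg2
    simp at hneg2
  · exact absurd (hBpos om h0) (not_lt.2 hneg2.le)

end Pool.Agent.Q22.PK
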