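import Pool.Agent.Q22.PK.Stm

/-!
Project PK (helper22), MP_c9e91a_gt, job PEX (helper214): derivatives of the polynomial cometric.
-/

set_option autoImplicit false

open Bundle Manifold ContDiff
open scoped Topology

noncomputable section

namespace Pool.Agent.Q22.PK

open Pool.Agent.H821R2 Pool.Agent.H893R5.HO

namespace PEX

variable {d : ℕ} (J : EE d →L[ℝ] EE d) (t : ℝ)

theorem W_apply (z b : EE d) : W J t z b = (1 + inner ℝ z z / 3 : ℝ) • b -
    (1 / 3 : ℝ) • ((inner ℝ z b : ℝ) • z) - t • ((inner ℝ (J z) b : ℝ) • J z) := rfl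

theorem diff_W (b : EE d) : Differentiable ℝ fun z : EE d => W J t z b := by
  have : (fun z : EE d => W J t z b) = fun z : EE d => (1 + inner ℝ z z / 3 : ℝ) • b -
    (1 / 3 : ℝ) • ((inner ℝ z b : ℝ) • z) - t • ((inner ℝ (J z) b : ℝ) • J z) := by
    funext z
    exact W_apply J t z b
  rw [this]
  have hzz : Differentiable ℝ fun z : EE d => (inner ℝ z z : ℝ) :=
    differentiable_id.inner ℝ differentiable_id
  have hzb : Differentiable ℝ fun z : EE d => (inner ℝ z b : ℝ) :=
    differentiable_id.inner ℝ (differentiable_const b)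
  have hJb : Differentiable ℝ fun z : EE d => (inner ℝ (J z) b : ℝ) :=
    J.differentiable.inner ℝ (differentiable_const b)
  have h3 : Differentiable ℝ fun z : EE d => (1 + inner ℝ z z / 3 : ℝ) := by
    simp only [div_eq_mul_inv]
    exact (differentiable_const (1 : ℝ)).add (hzz.mul_const (3 : ℝ)⁻¹)
  exact ((h3.smul (differentiable_const b)).sub ((hzb.smul differentiable_id).const_smul (1 / 3 : ℝ))).sub
    ((hJb.smul J.differentiable).const_smul t)

theorem diff_W1 (e b : EE d) : Differentiable ℝ fun z : EE d => W1 J t z (W J t z e) b := by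
  have h := diff_W J t e
  unfold W1
  have h1 : Differentiable ℝ fun z : EE d => (inner ℝ z (W J t z e) : ℝ) :=
    differentiable_id.inner ℝ h
  have h2 : Differentiable ℝ fun z : EE d => (inner ℝ (W J t z e) b : ℝ) :=
    h.inner ℝ (differentiable_const b)
  have hzb : Differentiable ℝ fun z : EE d => (inner ℝ z b : ℝ) :=
    differentiable_id.inner ℝ (differentiable_const b)
  have hJW : Differentiable ℝ fun z : EE d => J (W J t z e) := J.differentiable.comp h
  have h3 : Differentiable ℝ fun z : EE d => (inner ℝ (J (W J t z e)) b : ℝ) :=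
    hJW.inner ℝ (differentiable_const b)
  have hJb : Differentiable ℝ fun z : EE d => (inner ℝ (J z) b : ℝ) :=
    J.differentiable.inner ℝ (differentiable_const b)
  exact (((h1.const_mul (2 / 3 : ℝ)).smul (differentiable_const b)).sub
    (((h2.smul differentiable_id).add (hzb.smul h)).const_smul (1 / 3 : ℝ))).sub
    (((h3.smul J.differentiable).add (hJb.smul hJW)).const_smul t)

/-- the quadratic part -/
def W2 (h b : EE d) : EE d := (inner ℝ h h / 3 : ℝ) • b -
    (1 / 3 : ℝ) • ((inner ℝ h b : ℝ) • h) - t • ((inner ℝ (J h) b : ℝ) • J h)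

theorem W_line (z h b : EE d) (s : ℝ) :
    W J t (z + s • h) b = W J t z b + s • W1 J t z h b + s ^ 2 • W2 J t h b := by
  rw [W_apply, W_apply, W1, W2]
  simp only [map_add, map_smul, inner_add_left, inner_add_right, real_inner_smul_left,
    real_inner_smul_right]
  rw [real_inner_comm z h]
  module

theorem W1_add_left (z z' h b : EE d) : W1 J t (z + z') h b = W1 J t z h b + W1 J t z' h b := by
  unfold W1
  simp only [map_add, inner_add_left]
  module

theorem W1_smul_left (s : ℝ) (z h b : EE d) : W1 J t (s • z) h b = s • W1 J t z h b := by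
  unfold W1
  simp only [map_smul, real_inner_smul_left]
  module

theorem W1_add_right (z h h' b : EE d) : W1 J t z (h + h') b = W1 J t z h b + W1 J t z h' b := by
  unfold W1
  simp only [map_add, inner_add_left, inner_add_right]
  module

theorem W1_smul_right (s : ℝ) (z h b : EE d) : W1 J t z (s • h) b = s • W1 J t z h b := by
  unfold W1
  simp only [map_smul, real_inner_smul_left, real_inner_smul_right]
  module

theorem W1_line (z k e b : EE d) (s : ℝ) :
    W1 J t (z + s • k) (W J t (z + s • k) e) b = W1 J t z (W J t z e) b +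
      s • (W1 J t k (W J t z e) b + W1 J t z (W1 J t z k e) b) +
      s ^ 2 • (W1 J t k (W1 J t z k e) b + W1 J t z (W2 J t k e) b + s • W1 J t k (W2 J t k e) b) := by
  rw [W_line]
  simp only [W1_add_left, W1_add_right, W1_smul_left, W1_smul_right]
  module

theorem hasDerivAt_line {F : Type*} [NormedAddCommGroup F] [NormedSpace ℝ F] {f : EE d → F}
    {z h : EE d} (hf : DifferentiableAt ℝ f z) {A0 A1 : F} {A2 : ℝ → F} (hA2 : DifferentiableAt ℝ A2 0)
    (hl : ∀ s : ℝ, f (z + s • h) = A0 + s • A1 + s ^ 2 • A2 s) : fderiv ℝ f z h = A1 := by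
  have h1 : HasDerivAt (fun s : ℝ => f (z + s • h)) (fderiv ℝ f z h) 0 :=
    hf.hasFDerivAt.hasLineDerivAt h
  have h2 : HasDerivAt (fun s : ℝ => f (z + s • h)) A1 0 := by
    have e : (fun s : ℝ => f (z + s • h)) = fun s : ℝ => A0 + s • A1 + s ^ 2 • A2 s := by
      funext s
      exact hl s
    rw [e]
    have k1 : HasDerivAt (fun s : ℝ => s • A1) ((1 : ℝ) • A1) 0 := (hasDerivAt_id 0).smul_const A1
    have k2 : HasDerivAt (fun s : ℝ => s ^ 2 • A2 s) 0 0 :=
      ((hasDerivAt_pow 2 (0 : ℝ)).smul hA2.hasDerivAt).congr_deriv (by simp)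
    exact ((k1.const_add A0).add k2).congr_deriv (by simp)
  exact h1.unique h2

theorem fderiv_W (z h b : EE d) : fderiv ℝ (fun z : EE d => W J t z b) z h = W1 J t z h b :=
  hasDerivAt_line (A2 := fun _ => W2 J t h b) (diff_W J t b z) (differentiableAt_const _)
    fun s => W_line J t z h b s

theorem fderiv_inner (a z h : EE d) {f : EE d → EE d} (hf : DifferentiableAt ℝ f z) :
    fderiv ℝ (fun z : EE d => (inner ℝ a (f z) : ℝ)) z h = inner ℝ a (fderiv ℝ f z h) := by
  have h1 := (innerSL ℝ a).hasFDerivAt.comp z hf.hasFDerivAt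
  have h2 : fderiv ℝ (fun z : EE d => (inner ℝ a (f z) : ℝ)) z =
      (innerSL ℝ a).comp (fderiv ℝ f z) := h1.fderiv
  rw [h2]
  rfl

theorem fderiv_W1 (z k e b : EE d) : fderiv ℝ (fun z : EE d => W1 J t z (W J t z e) b) z k =
    W1 J t k (W J t z e) b + W1 J t z (W1 J t z k e) b :=
  hasDerivAt_line (A2 := fun s => W1 J t k (W1 J t z k e) b + W1 J t z (W2 J t k e) b +
      s • W1 J t k (W2 J t k e) b) (diff_W1 J t e b z) (by fun_prop)
    fun s => W1_line J t z k e b s

end PEX

theorem t_PEX : S_PEX := by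
  intro d X r c hX J e hJ t z a b γ
  have hFF : ∀ a b : EE d, X.FF (W J t) a b = fun z => inner ℝ a (W J t z b) := by
    intro a b
    funext z
    exact hX.B_eq a (W J t z b)
  have hfd : ∀ a b z h : EE d, fderiv ℝ (X.FF (W J t) a b) z h = inner ℝ a (W1 J t z h b) := by
    intro a b z h
    rw [hFF, PEX.fderiv_inner a z h (PEX.diff_W J t b z), PEX.fderiv_W]
  have hDir : ∀ e a b : EE d, Emb.Dir (W J t) e (X.FF (W J t) a b) =
      fun z => inner ℝ a (W1 J t z (W J t z e) b) := by
    intro e a b
    funext z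
    exact hfd a b z _
  have hDD : ∀ c e a b : EE d, Emb.Dir (W J t) c (Emb.Dir (W J t) e (X.FF (W J t) a b)) z =
      DD J t z c e a b := by
    intro c e a b
    rw [hDir]
    show fderiv ℝ (fun z : EE d => (inner ℝ a (W1 J t z (W J t z e) b) : ℝ)) z (W J t z c) = _
    rw [PEX.fderiv_inner a z _ (PEX.diff_W1 J t e b z), PEX.fderiv_W1, inner_add_right]
    rfl
  have hrep : ∀ a b : EE d, X.rep (fderiv ℝ (X.FF (W J t) a b) z) = nn J t z a b := by
    intro a b
    apply Emb.rep_eq
    intro v
    rw [hX.B_eq, hfd]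
    unfold nn W1
    simp only [inner_add_left, inner_add_right, inner_sub_right, inner_sub_left,
      real_inner_smul_left, real_inner_smul_right]
    have h1 : (inner ℝ (J v) b : ℝ) = - inner ℝ (J b) v := by
      rw [hJ.skew v b, real_inner_comm v (J b)]
    have h2 : (inner ℝ a (J v) : ℝ) = - inner ℝ (J a) v := by
      rw [hJ.skew a v, neg_neg]
    rw [h1, h2, real_inner_comm v b]
    ring
  have hBr : Emb.Br (W J t) a b z = BB J t a b z := by
    unfold Emb.Br BB
    rw [PEX.fderiv_W, PEX.fderiv_W]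
  refine ⟨?_, hBr⟩
  unfold Emb.Pexp PE
  rw [hDD, hDD, hDD, hDD, hrep, hrep, hfd, hfd, hBr, hX.B_eq, hX.B_eq]

end Pool.Agent.Q22.PK
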