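import Pool.Agent.Q22.PK.Stm

/-!
# Project PK, lemma PIN: the metric is pinched
-/

set_option autoImplicit false
set_option synthInstance.maxHeartbeats 400000
set_option maxHeartbeats 4000000

open Bundle Manifold ContDiff
open scoped Topology

noncomputable section

namespace Pool.Agent.Q22.PK

open Pool.Agent.H821R2 Pool.Agent.H893R5.HO

namespace PIN

theorem nontriv {d : ℕ} (hd : 4 ≤ d) : Nontrivial (EE d) := by
  have : Nonempty (Fin d) := ⟨⟨0, by omega⟩⟩
  infer_instance

end PIN

theorem t_PIN : S_PIN := by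
  intro hPEX d hd X r c hX J e hJ t hCom l h δ hl hδ hlh hbd g hg cov R hLC hR
  have : Nontrivial (EE d) := PIN.nontriv hd
  have key : ∀ (x : EE d) (u v : TangentSpace (𝓡 d) x), OrthoPair g x u v →
      l ≤ sec g R x u v ∧ sec g R x u v ≤ h := by
    intro x u v huv
    obtain ⟨a, ha1, ha⟩ := Emb.exists_covec hCom hg x u
    obtain ⟨b, hb1, hb⟩ := Emb.exists_covec hCom hg x v
    obtain ⟨γ, hγ1, hγ, hK⟩ := Emb.curv_eq hCom hg hLC hR x a b u v ha.symm hb.symm
    obtain ⟨huu, hvv, huv0⟩ := huv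
    have e1 : inner ℝ a (W J t (X.j x) a) = (1 : ℝ) := by
      rw [← hX.B_eq, ha, ← hg x a u ha.symm u]
      exact huu
    have e2 : inner ℝ b (W J t (X.j x) b) = (1 : ℝ) := by
      rw [← hX.B_eq, hb, ← hg x b v hb.symm v]
      exact hvv
    have e3 : inner ℝ a (W J t (X.j x) b) = (0 : ℝ) := by
      rw [← hX.B_eq, hb, ← hg x a u ha.symm v]
      exact huv0
    obtain ⟨p1, p2⟩ := hPEX d X r c hX J e hJ t (X.j x) a b γ
    have e4 : W J t (X.j x) γ = BB J t a b (X.j x) := by
      rw [hγ, p2]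
    have e5 := hbd (X.j x) a b γ (hX.small x) e1 e2 e3 e4
    have e6 : sec g R x u v = PE J t (X.j x) a b γ := by
      rw [← p1]
      exact hK
    rw [e6]
    exact e5
  refine ⟨fun x u v huv => hl.trans_le (key x u v huv).1, ?_⟩
  intro x u v u' v' huv hu'v'
  have h1 := (key x u v huv).1
  have h2 := (key x u' v' hu'v').2
  have h3 : δ * sec g R x u' v' ≤ δ * h := mul_le_mul_of_nonneg_left h2 hδ.le
  linarith

end Pool.Agent.Q22.PK
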