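import Pool.Agent.Q22.PK.Stm

/-!
# Project PK: the upper bound on manifolds
-/

set_option autoImplicit false

open Bundle Manifold ContDiff Pool.Agent.H821R2 Pool.Agent.H893R5.HO
open scoped Topology

noncomputable section

namespace Pool.Agent.Q22.PK

/-- **The upper bound**, from the algebraic statement. -/
theorem t_UPP : S_UPP := by
  intro halg d hd δ hδ hδ1 M _ _ _ _ _ g cov R hLC hR hP x
  have : Nonempty (Fin d) := ⟨⟨0, by omega⟩⟩
  have : LocallyCompactSpace M := ChartedSpace.locallyCompactSpace (EuclideanSpace ℝ (Fin d)) M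
  have : SigmaCompactSpace M := inferInstance
  have : Nontrivial (EuclideanSpace ℝ (Fin d)) := inferInstance
  letI : RiemannianBundle (fun x : M => TangentSpace (𝓡 d) x) := ⟨g.toRiemannianMetric⟩
  have hB : IsLeviCivitaB cov := ⟨hLC.smooth, hLC.metric, hLC.torsionFree⟩
  have hT := isCurvatureTensor hB hR x
  have : FiniteDimensional ℝ (TangentSpace (𝓡 d) x) :=
    inferInstanceAs (FiniteDimensional ℝ (EuclideanSpace ℝ (Fin d)))
  have hfin : Module.finrank ℝ (TangentSpace (𝓡 d) x) = d := by
    change Module.finrank ℝ (EuclideanSpace ℝ (Fin d)) = d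
    simp
  refine ⟨curvForm (R x), ?_, ?_⟩
  · intro a b c e
    exact curvForm_wedge hT a b c e
  · intro η hη
    refine halg d hd (TangentSpace (𝓡 d) x) hfin (R x) hT δ hδ hδ1 ?_ ?_ η hη
    · intro u v hu hv huv
      exact hP.1 x u v ⟨hu, hv, huv⟩
    · intro u v u' v' hu hv huv hu' hv' huv'
      exact hP.2 x u v u' v' ⟨hu, hv, huv⟩ ⟨hu', hv', huv'⟩

end Pool.Agent.Q22.PK

end
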