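import Pool.Agent.Q22.PK.Stm

/-!
# PK-ZER: the metric and the sectional curvature at the point `0`
-/

set_option autoImplicit false
set_option synthInstance.maxHeartbeats 400000
set_option maxHeartbeats 4000000

open Bundle Manifold ContDiff
open scoped Topology

noncomputable section

namespace Pool.Agent.Q22.PK

open Pool.Agent.H821R2 Pool.Agent.H893R5.HO

namespace ZER

theorem K0_smul {d : ℕ} (J : EE d →L[ℝ] EE d) (t c : ℝ) (u v : EE d) :
    K0 J t (c • u) (c • v) = c ^ 4 * K0 J t u v := by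
  simp only [K0, map_smul, inner_smul_left, inner_smul_right, conj_trivial]
  ring

end ZER

theorem t_ZER : S_ZER := by
  intro hPEX hKZE d hd X r c hX J e hJ t hW g hg cov R h hR u v
  haveI : Nonempty (Fin d) := ⟨⟨0, by omega⟩⟩
  have hK := hKZE d J e hJ t
  have hu : X.d (0 : EE d) u = W J t (X.j (0 : EE d)) (c • u : EE d) := by
    rw [hX.j_zero, (hK (c • u) 0).2.2]
    exact hX.d_zero u
  have hv : X.d (0 : EE d) v = W J t (X.j (0 : EE d)) (c • v : EE d) := by
    rw [hX.j_zero, (hK (c • v) 0).2.2]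
    exact hX.d_zero v
  constructor
  · have h1 := hg (0 : EE d) (c • u : EE d) u hu v
    rw [hX.B_eq, hX.d_zero v] at h1
    refine h1.trans ?_
    change inner ℝ (c • u : EE d) (c • v : EE d) = _
    rw [inner_smul_left, inner_smul_right, conj_trivial]
    ring
  · obtain ⟨γ, hγ1, hγ2, hγ3⟩ := Emb.curv_eq hW hg h hR (0 : EE d) (c • u : EE d) (c • v : EE d) u v
      hu hv
    refine hγ3.trans ?_
    have hP := hPEX d X r c hX J e hJ t 0 (c • u) (c • v) γ
    rw [hX.j_zero] at hγ2 ⊢
    have hγ0 : γ = 0 := by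
      have h2 := (hK γ 0).2.2
      have h3 := (hK (c • u) (c • v)).2.1
      rw [← h2, hγ2, hP.2, h3]
    rw [hP.1, hγ0, (hK (c • u) (c • v)).1]
    exact ZER.K0_smul J t c u v

end Pool.Agent.Q22.PK
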