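import Pool.Agent.Q22.PK.CF
import Pool.Agent.Q22.PK.ALG
import Pool.Agent.Q22.PK.UPP
import Pool.Agent.Q22.PK.JEX
import Pool.Agent.Q22.PK.EMB
import Pool.Agent.Q22.PK.COM
import Pool.Agent.Q22.PK.PEX
import Pool.Agent.Q22.PK.KZE
import Pool.Agent.Q22.PK.LOC
import Pool.Agent.Q22.PK.PIN
import Pool.Agent.Q22.PK.ZER
import Pool.Agent.Q22.PK.NEG
import Pool.Agent.Q22.PK.OPE
import Pool.Agent.Q22.PK.LOW

/-!
# Project PK (helper22), MP_c9e91a_gt: assembly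
-/

set_option autoImplicit false

namespace Pool.Agent.Q22.PK

open Pool.Agent.H821R2 Pool.Agent.H893R5.HO

theorem bet_lt_one (d : ℕ) : bet d < 1 := by
  unfold bet
  have h : (0 : ℝ) ≤ ((d / 2 : ℕ) : ℝ) := Nat.cast_nonneg _
  rw [div_lt_one (by linarith)]
  linarith

theorem bet_pos (d : ℕ) (hd : 4 ≤ d) : 0 < bet d := by
  unfold bet
  have h : (2 : ℝ) ≤ ((d / 2 : ℕ) : ℝ) := by
    have : 2 ≤ d / 2 := by omega
    exact_mod_cast this
  apply div_pos <;> linarith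

theorem final_of (hU : ∀ d : ℕ, 4 ≤ d → ∀ δ : ℝ, bet d < δ → δ ≤ 1 → Forces d δ)
    (hL : ∀ d : ℕ, 4 ≤ d → ∀ δ : ℝ, 0 < δ → δ < bet d → ¬ Forces d δ) : S_FINAL := by
  intro d hd
  change pinchingConstant d = bet d
  have hb1 := bet_lt_one d
  have hb0 := bet_pos d hd
  have hbdd : BddBelow {δ : ℝ | 0 < δ ∧ δ ≤ 1 ∧ Forces d δ} := ⟨0, fun δ h => h.1.le⟩
  have hne : ({δ : ℝ | 0 < δ ∧ δ ≤ 1 ∧ Forces d δ}).Nonempty :=
    ⟨1, one_pos, le_refl _, hU d hd 1 hb1 le_rfl⟩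
  apply le_antisymm
  · apply le_of_forall_gt
    intro δ hδ
    obtain ⟨ε, h1, h2⟩ := exists_between (lt_min hδ hb1)
    have h3 : ε < δ := lt_of_lt_of_le h2 (min_le_left _ _)
    have h4 : ε < 1 := lt_of_lt_of_le h2 (min_le_right _ _)
    exact lt_of_le_of_lt (csInf_le hbdd ⟨by linarith, h4.le, hU d hd ε h1 h4.le⟩) h3
  · apply le_csInf hne
    rintro δ ⟨h0, _, h⟩
    by_contra hc
    exact hL d hd δ h0 (not_le.1 hc) h

/-- the final statement -/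
theorem final : S_FINAL :=
  final_of (t_UPP (t_ALG t_CF))
    (t_LOW t_JEX t_KZE t_LOC t_EMB t_COM t_PEX t_PIN t_ZER t_NEG t_OPE)

end Pool.Agent.Q22.PK
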