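import Pool.Agent.Q22.PK.Stm

/-!
# Project PK (helper22), job CF: positivity on a bivector in normal form (by helper182)
-/

set_option autoImplicit false

open Bundle Manifold ContDiff
open scoped Topology

noncomputable section

namespace Pool.Agent.Q22.PK

open Pool.Agent.H821R2 Pool.Agent.H893R5.HO

namespace CF

/-- the elementary estimate of the double sum -/
theorem sum_est {k : ℕ} (c : Fin k → ℝ) (M : Fin k → Fin k → ℝ) (a β : ℝ)
    (hd : ∀ i, a ≤ M i i) (ho : ∀ i j, i ≠ j → |M i j| ≤ β) :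
    (a - ((k : ℝ) - 1) * β) * ∑ i, c i ^ 2 ≤ ∑ i, ∑ j, c i * c j * M i j := by
  have h1 : ∀ i j, (if i = j then (a + β) * c i ^ 2 else 0) - β * ((c i ^ 2 + c j ^ 2) / 2) ≤
      c i * c j * M i j := by
    intro i j
    by_cases hij : i = j
    · subst hij
      rw [if_pos rfl]
      have := mul_le_mul_of_nonneg_left (hd i) (sq_nonneg (c i))
      nlinarith
    · rw [if_neg hij]
      have h2 : |c i * c j * M i j| ≤ (c i ^ 2 + c j ^ 2) / 2 * β := by
        rw [abs_mul]
        refine mul_le_mul ?_ (ho i j hij) (abs_nonneg _) (by positivity)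
        rw [abs_mul]
        nlinarith [sq_nonneg (|c i| - |c j|), sq_abs (c i), sq_abs (c j)]
      have h3 := neg_abs_le (c i * c j * M i j)
      linarith
  have h2 : ∑ i, ∑ j, ((if i = j then (a + β) * c i ^ 2 else 0) -
      β * ((c i ^ 2 + c j ^ 2) / 2)) ≤ ∑ i, ∑ j, c i * c j * M i j :=
    Finset.sum_le_sum fun i _ => Finset.sum_le_sum fun j _ => h1 i j
  refine le_trans (le_of_eq ?_) h2
  have h3 : ∀ i, ∑ j, ((if i = j then (a + β) * c i ^ 2 else 0) -
      β * ((c i ^ 2 + c j ^ 2) / 2)) =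
      (a + β) * c i ^ 2 - β * ((k : ℝ) * c i ^ 2 / 2 + (∑ j, c j ^ 2) / 2) := by
    intro i
    rw [Finset.sum_sub_distrib, Finset.sum_ite_eq, if_pos (Finset.mem_univ i), ← Finset.mul_sum,
      ← Finset.sum_div, Finset.sum_add_distrib, Finset.sum_const, Finset.card_univ,
      Fintype.card_fin, nsmul_eq_mul]
    ring
  rw [Finset.sum_congr rfl fun i _ => h3 i, Finset.sum_sub_distrib, ← Finset.mul_sum,
    ← Finset.mul_sum, Finset.sum_add_distrib, Finset.sum_const, Finset.card_univ,
    Fintype.card_fin, nsmul_eq_mul, ← Finset.sum_div, ← Finset.mul_sum]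
  ring

end CF

/-- **JOB CF** -/
theorem t_CF : S_CF := by
  intro V _ _ _ R hR a b hab hsec k u v c huu hvv huv hc hlt
  obtain ⟨β, hβ⟩ : ∃ β : ℝ, β = 2 / 3 * (b - a) := ⟨_, rfl⟩
  have hvu : ∀ i j, inner ℝ (v i) (u j) = (0 : ℝ) := fun i j => by
    rw [real_inner_comm]; exact huv j i
  have hlo : ∀ x y, a * area x y ≤ kap R x y := fun x y => (kap_bounds hR hsec x y).1
  have hhi : ∀ x y, kap R x y ≤ b * area x y := fun x y => (kap_bounds hR hsec x y).2
  have hdiag : ∀ i, a ≤ inner ℝ (R (u i) (v i) (v i)) (u i) := fun i =>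
    (hsec (u i) (v i) (by rw [huu, if_pos rfl]) (by rw [hvv, if_pos rfl]) (huv i i)).1
  have hoff : ∀ i j, i ≠ j → |inner ℝ (R (u i) (v i) (v j)) (u j)| ≤ β := by
    intro i j hij
    have h1 := berger_inequality hR hlo hhi (x := u i) (y := v i) (z := v j) (w := u j)
      (by rw [huu, if_pos rfl]) (by rw [hvv, if_pos rfl]) (by rw [hvv, if_pos rfl])
      (by rw [huu, if_pos rfl]) (huv i i) (huv i j) (by rw [huu, if_neg hij])
      (by rw [hvv, if_neg hij]) (hvu i j) (hvu j j)
    have h2 := berger_inequality hR hlo hhi (x := u i) (y := v i) (z := v j) (w := - u j)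
      (by rw [huu, if_pos rfl]) (by rw [hvv, if_pos rfl]) (by rw [hvv, if_pos rfl])
      (by rw [inner_neg_left, inner_neg_right, neg_neg, huu, if_pos rfl]) (huv i i) (huv i j)
      (by rw [inner_neg_right, huu, if_neg hij, neg_zero])
      (by rw [hvv, if_neg hij]) (by rw [inner_neg_right, hvu, neg_zero])
      (by rw [inner_neg_right, hvu, neg_zero])
    rw [inner_neg_right] at h2
    rw [abs_le, hβ]
    exact ⟨by linarith, h1⟩
  have hform : curvForm R (∑ i, c i • wedge (u i) (v i)) (∑ i, c i • wedge (u i) (v i)) =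
      ∑ i, ∑ j, c i * c j * inner ℝ (R (u i) (v i) (v j)) (u j) := by
    rw [map_sum (curvForm R), LinearMap.sum_apply]
    refine Finset.sum_congr rfl fun i _ => ?_
    rw [map_sum]
    refine Finset.sum_congr rfl fun j _ => ?_
    rw [map_smul, map_smul, LinearMap.smul_apply, smul_eq_mul, smul_eq_mul, curvForm_wedge hR]
    ring
  rw [hform]
  refine lt_of_lt_of_le ?_ (CF.sum_est c _ a β hdiag hoff)
  refine mul_pos ?_ ?_
  · rw [hβ]
    nlinarith
  · obtain ⟨i, hi⟩ := hc
    refine Finset.sum_pos' (fun j _ => sq_nonneg (c j)) ⟨i, Finset.mem_univ i, ?_⟩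
    positivity

end Pool.Agent.Q22.PK
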