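import Pool.Agent.H893R5.HO.GenRed

/-!
# Project PK (helper22), MP_c9e91a_gt: statements

The optimal pointwise pinching constant `δ(d)` of the sectional curvature which forces a positive
curvature operator is `δ(d) = (2 m - 2) / (2 m + 1)`, `m = ⌊d / 2⌋`, for every `d ≥ 4`.
Definitions: `Pool/Agent/H821R2/Defs.lean`; Berger's inequality, `curvForm` in `Pool/Agent/H821R2/PinchAlg.lean`; the
normal form of bivectors in `Pool/Agent/H821R2/Bivec.lean`; curvature of a metric given by its cometric `W`: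
`Pool/Agent/H893R5/HO/Gen.lean`, `GenRed.lean` (starting files).
Lower bound: `J` a skew map with `m` planes, the metric with cometric
`W z a = (1 + |z|²/3) a - ⟨z, a⟩ z / 3 - t ⟨J z, a⟩ J z` on a small ball; its sectional curvature at `0` is
`1 - 3 t ⟨J a, b⟩²`, and its curvature operator at `0` has the value `m (1 - (2 m + 1) t)` on the form of `J`.
-/

set_option autoImplicit false

open Bundle Manifold ContDiff
open scoped Topology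

noncomputable section

namespace Pool.Agent.Q22.PK

open Pool.Agent.H821R2 Pool.Agent.H893R5.HO

/-- the value of the pinching constant -/
def bet (d : ℕ) : ℝ := (2 * ((d / 2 : ℕ) : ℝ) - 2) / (2 * ((d / 2 : ℕ) : ℝ) + 1)

/-- Euclidean space -/
abbrev EE (d : ℕ) : Type := EuclideanSpace ℝ (Fin d)

/-! ## A. Upper bound -/

/-- CF: positivity on a bivector in normal form.
Proof. `curvForm_wedge` and bilinearity: the value is `∑_i ∑_j c_i c_j ⟪R (u_i) (v_i) (v_j), u_j⟫`. The diagonal terms are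
`c_i² kap R (u_i) (v_i) ≥ c_i² a`; for `i ≠ j` `|⟪R (u_i) (v_i) (v_j), u_j⟫| ≤ (2/3) (b - a)` (`berger_inequality` with `kap_bounds`,
for `(x, y, z, w) = (u_i, v_i, v_j, ± u_j)`), and `∑_{i ≠ j} |c_i c_j| ≤ (k - 1) ∑ c_i²`. -/
def S_CF : Prop := ∀ (V : Type) [NormedAddCommGroup V] [InnerProductSpace ℝ V] [FiniteDimensional ℝ V]
  (R : V →ₗ[ℝ] V →ₗ[ℝ] V →ₗ[ℝ] V), IsCurvatureTensor R → ∀ a b : ℝ, a ≤ b →
  (∀ x y : V, inner ℝ x x = (1 : ℝ) → inner ℝ y y = (1 : ℝ) → inner ℝ x y = (0 : ℝ) →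
    a ≤ kap R x y ∧ kap R x y ≤ b) →
  ∀ (k : ℕ) (u v : Fin k → V) (c : Fin k → ℝ),
    (∀ i j, inner ℝ (u i) (u j) = if i = j then (1 : ℝ) else 0) →
    (∀ i j, inner ℝ (v i) (v j) = if i = j then (1 : ℝ) else 0) →
    (∀ i j, inner ℝ (u i) (v j) = (0 : ℝ)) → (∃ i, c i ≠ 0) →
    2 / 3 * (b - a) * ((k : ℝ) - 1) < a →
    0 < curvForm R (∑ i, c i • wedge (u i) (v i)) (∑ i, c i • wedge (u i) (v i))

/-- ALG: the algebraic upper bound.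
Proof. Let `b` be the supremum of the numbers `kap R x y` over orthonormal pairs (bounded above by `kap R x₀ y₀ / δ`, positive),
`a = δ b`. Normal form (`exists_normal_form`) `η = ∑_{i < k} c_i u_i ∧ v_i`, `2 k ≤ d`, so `k ≤ d / 2 = m` and some `c_i ≠ 0`;
`(2/3) (b - a) (k - 1) ≤ (2/3) (1 - δ) b (m - 1) < δ b` since `δ > (2 m - 2) / (2 m + 1)`; use `S_CF`. -/
def S_ALG : Prop := S_CF → ∀ d : ℕ, 4 ≤ d → ∀ (V : Type) [NormedAddCommGroup V] [InnerProductSpace ℝ V]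
  [FiniteDimensional ℝ V], Module.finrank ℝ V = d →
  ∀ R : V →ₗ[ℝ] V →ₗ[ℝ] V →ₗ[ℝ] V, IsCurvatureTensor R → ∀ δ : ℝ, bet d < δ → δ ≤ 1 →
  (∀ x y : V, inner ℝ x x = (1 : ℝ) → inner ℝ y y = (1 : ℝ) → inner ℝ x y = (0 : ℝ) → 0 < kap R x y) →
  (∀ x y x' y' : V, inner ℝ x x = (1 : ℝ) → inner ℝ y y = (1 : ℝ) → inner ℝ x y = (0 : ℝ) →
    inner ℝ x' x' = (1 : ℝ) → inner ℝ y' y' = (1 : ℝ) → inner ℝ x' y' = (0 : ℝ) →
    δ * kap R x' y' ≤ kap R x y) →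
  ∀ η : ⋀[ℝ]^2 V, η ≠ 0 → 0 < curvForm R η η

/-- UPP: the upper bound.
Proof. At `x` use the inner product `g.inner x` (`letI : RiemannianBundle _ := ⟨g.toRiemannianMetric⟩`, as in
`Emb.kappa_scale` of `GenRed.lean`), `isCurvatureTensor` (sigma-compactness from second countability), `B = curvForm (R x)`
(`curvForm_wedge`), and the algebraic statement. -/
def S_UPP : Prop := (∀ d : ℕ, 4 ≤ d → ∀ (V : Type) [NormedAddCommGroup V] [InnerProductSpace ℝ V]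
    [FiniteDimensional ℝ V], Module.finrank ℝ V = d →
    ∀ R : V →ₗ[ℝ] V →ₗ[ℝ] V →ₗ[ℝ] V, IsCurvatureTensor R → ∀ δ : ℝ, bet d < δ → δ ≤ 1 →
    (∀ x y : V, inner ℝ x x = (1 : ℝ) → inner ℝ y y = (1 : ℝ) → inner ℝ x y = (0 : ℝ) → 0 < kap R x y) →
    (∀ x y x' y' : V, inner ℝ x x = (1 : ℝ) → inner ℝ y y = (1 : ℝ) → inner ℝ x y = (0 : ℝ) →
      inner ℝ x' x' = (1 : ℝ) → inner ℝ y' y' = (1 : ℝ) → inner ℝ x' y' = (0 : ℝ) →
      δ * kap R x' y' ≤ kap R x y) →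
    ∀ η : ⋀[ℝ]^2 V, η ≠ 0 → 0 < curvForm R η η) →
  ∀ d : ℕ, 4 ≤ d → ∀ δ : ℝ, bet d < δ → δ ≤ 1 → Forces d δ

/-! ## B. Lower bound: the tensor -/

/-- a skew map with `m = ⌊d / 2⌋` planes -/
structure IsJ {d : ℕ} (J : EE d →L[ℝ] EE d) (e : Fin (d / 2) → EE d) : Prop where
  skew : ∀ x y, inner ℝ (J x) y = - inner ℝ x (J y)
  norm_le : ∀ x, ‖J x‖ ≤ ‖x‖
  ee : ∀ i j, inner ℝ (e i) (e j) = if i = j then (1 : ℝ) else 0
  eJ : ∀ i j, inner ℝ (e i) (J (e j)) = (0 : ℝ)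
  JJ : ∀ i, J (J (e i)) = - e i

/-- JEX: existence. Proof. `(J x)_{2 i} = - x_{2 i + 1}`, `(J x)_{2 i + 1} = x_{2 i}` for `i < m`, and `0` in the last coordinate if `d` is
odd; `e_i` the basis vector `2 i`. (Or: `J = ∑_i (⟪a_i, ·⟫ b_i - ⟪b_i, ·⟫ a_i)` for the orthonormal family `a_i`, `b_i`; `|J x|² = ∑ (⟪a_i, x⟫² + ⟪b_i, x⟫²)`,
Bessel.) -/
def S_JEX : Prop := ∀ d : ℕ, ∃ (J : EE d →L[ℝ] EE d) (e : Fin (d / 2) → EE d), IsJ J e

/-- the curvature at `0`, on two vectors -/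
def K0 {d : ℕ} (J : EE d →L[ℝ] EE d) (t : ℝ) (a b : EE d) : ℝ :=
  inner ℝ a a * inner ℝ b b - inner ℝ a b ^ 2 - 3 * t * inner ℝ (J a) b ^ 2

/-- the cometric -/
def W {d : ℕ} (J : EE d →L[ℝ] EE d) (t : ℝ) (z : EE d) : EE d →L[ℝ] EE d :=
  (1 + inner ℝ z z / 3 : ℝ) • ContinuousLinearMap.id ℝ (EE d) -
    (1 / 3 : ℝ) • (innerSL ℝ z).smulRight z - t • (innerSL ℝ (J z)).smulRight (J z)

/-- the derivative of `z ↦ W z b` in the direction `h` -/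
def W1 {d : ℕ} (J : EE d →L[ℝ] EE d) (t : ℝ) (z h b : EE d) : EE d :=
  (2 / 3 * inner ℝ z h : ℝ) • b - (1 / 3 : ℝ) • ((inner ℝ h b : ℝ) • z + (inner ℝ z b : ℝ) • h) -
    t • ((inner ℝ (J h) b : ℝ) • J z + (inner ℝ (J z) b : ℝ) • J h)

/-- the gradient of `z ↦ ⟪a, W z b⟫` -/
def nn {d : ℕ} (J : EE d →L[ℝ] EE d) (t : ℝ) (z a b : EE d) : EE d :=
  (2 / 3 * inner ℝ a b : ℝ) • z - (1 / 3 : ℝ) • ((inner ℝ a z : ℝ) • b + (inner ℝ z b : ℝ) • a) +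
    t • ((inner ℝ a (J z) : ℝ) • J b + (inner ℝ (J z) b : ℝ) • J a)

/-- the bracket -/
def BB {d : ℕ} (J : EE d →L[ℝ] EE d) (t : ℝ) (a b z : EE d) : EE d :=
  W1 J t z (W J t z a) b - W1 J t z (W J t z b) a

/-- the second derivative along the fields `W c`, `W e` of `⟪a, W z b⟫` -/
def DD {d : ℕ} (J : EE d →L[ℝ] EE d) (t : ℝ) (z c e a b : EE d) : ℝ :=
  inner ℝ a (W1 J t (W J t z c) (W J t z e) b) +
    inner ℝ a (W1 J t z (W1 J t z (W J t z c) e) b)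

/-- the curvature expression in closed form -/
def PE {d : ℕ} (J : EE d →L[ℝ] EE d) (t : ℝ) (z a b γ : EE d) : ℝ :=
  1 / 2 * DD J t z a a b b + 1 / 2 * DD J t z b b a a - 1 / 2 * (DD J t z a b a b + DD J t z b a a b) -
    1 / 4 * inner ℝ a (W1 J t z (W J t z (nn J t z b b)) a) +
    1 / 4 * inner ℝ a (W1 J t z (W J t z (nn J t z a b)) b) +
    3 / 4 * (inner ℝ γ (W J t z γ) - 2 * inner ℝ γ (BB J t a b z))

/-- the ambient data: `ℝ^d` with a diffeomorphism `j` onto a small ball -/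
structure Good {d : ℕ} (X : Emb (𝓡 d) (EE d) (EE d)) (r c : ℝ) : Prop where
  B_eq : ∀ a b, X.B a b = inner ℝ a b
  P_eq : ∀ z a, X.P z a = a
  small : ∀ p, ‖X.j p‖ < r
  j_zero : X.j (0 : EE d) = 0
  c_pos : 0 < c
  d_zero : ∀ v : TangentSpace (𝓡 d) (0 : EE d), X.d (0 : EE d) v = c • (show EE d from v)

/-- EMB: existence of the data.
Proof. `j z = (r / √(1 + |z|²)) z`; its derivative is `v ↦ r (v/s - ⟪z, v⟫ z/s³)`, `s = √(1 + |z|²)`, injective (take the inner product with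
`v`), so bijective; `mvfderiv (𝓡 d) j p v = fderiv ℝ j p v` for maps between vector spaces (see `d_comp` in `Gen.lean`; `mfderiv_eq_fderiv`); `B` the inner
product, `P z = id`, `c = r`. -/
def S_EMB : Prop := ∀ d : ℕ, 4 ≤ d → ∀ r : ℝ, 0 < r → ∃ (X : Emb (𝓡 d) (EE d) (EE d)) (c : ℝ), Good X r c

/-- COM: `W` is a cometric.
Proof. `W` is polynomial; symmetric; for `|z| < 1`, `a ≠ 0`:
`⟪a, W z a⟫ = |a|² + (|z|² |a|² - ⟪z, a⟫²)/3 - t ⟪J z, a⟫² ≥ (1 - t) |a|² > 0`. -/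
def S_COM : Prop := ∀ (d : ℕ) (X : Emb (𝓡 d) (EE d) (EE d)) (r c : ℝ), Good X r c → r ≤ 1 →
  ∀ (J : EE d →L[ℝ] EE d) (e : Fin (d / 2) → EE d), IsJ J e → ∀ t : ℝ, 0 ≤ t → t ≤ 1 / 3 → X.Com (W J t)

/-- PEX: the curvature expression.
Proof. `fderiv ℝ (fun z => W J t z b) z h = W1 J t z h b`; `X.FF W a b = fun z => ⟪a, W z b⟫`, so `fderiv ℝ (X.FF W a b) z h = ⟪a, W1 z h b⟫`
`= ⟪nn z a b, h⟫` (`J` skew), `X.rep (fderiv ℝ (X.FF W a b) z) = nn z a b` (`rep_eq`); `Dir W e (X.FF W a b) = fun z => ⟪a, W1 z (W z e) b⟫`, and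
`Dir W c (Dir W e (X.FF W a b)) z = DD z c e a b` (`W1` is bilinear in `z`, `h`). -/
def S_PEX : Prop := ∀ (d : ℕ) (X : Emb (𝓡 d) (EE d) (EE d)) (r c : ℝ), Good X r c →
  ∀ (J : EE d →L[ℝ] EE d) (e : Fin (d / 2) → EE d), IsJ J e → ∀ t : ℝ, ∀ z a b γ : EE d,
  X.Pexp (W J t) z a b γ = PE J t z a b γ ∧ Emb.Br (W J t) a b z = BB J t a b z

/-- KZE: the value at `0`. Proof. `W J t 0 = id`, `W1 0 = 0`; expand, with `⟪J a, a⟫ = 0`, `⟪a, J b⟫ = - ⟪J a, b⟫`. -/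
def S_KZE : Prop := ∀ (d : ℕ) (J : EE d →L[ℝ] EE d) (e : Fin (d / 2) → EE d), IsJ J e → ∀ t : ℝ,
  ∀ a b : EE d, PE J t 0 a b 0 = K0 J t a b ∧ BB J t a b 0 = 0 ∧ W J t 0 a = a

/-- LOC: near `0` the curvature is nearly that of `0`.
Proof. For `|z| ≤ 1`: `⟪a, W z a⟫ ≥ (1 - t) |a|² ≥ (2/3) |a|²`, so `|a|², |b|² ≤ 3/2` and `|γ| ≤ (3/2) |BB a b z|` is bounded. The set of the
`(z, a, b, γ)` with `|z| ≤ 1`, the four equations, and `PE ≤ 1 - 3 t - η` or `PE ≥ 1 + η` (so with the closed conditions) is compact (`PE`, `W`, `BB` are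
continuous), and it has no point with `z = 0` (there `γ = 0` and `PE = K0 = 1 - 3 t ⟪J a, b⟫²`, `|⟪J a, b⟫| ≤ 1`, by `S_KZE`), so its projection to `z` is a compact
set without `0`. -/
def S_LOC : Prop := S_KZE → ∀ (d : ℕ) (J : EE d →L[ℝ] EE d) (e : Fin (d / 2) → EE d), IsJ J e →
  ∀ t : ℝ, 0 < t → t < 1 / 3 → ∀ η : ℝ, 0 < η → ∃ r : ℝ, 0 < r ∧ r ≤ 1 ∧ ∀ z a b γ : EE d, ‖z‖ < r →
  inner ℝ a (W J t z a) = (1 : ℝ) → inner ℝ b (W J t z b) = (1 : ℝ) → inner ℝ a (W J t z b) = (0 : ℝ) →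
  W J t z γ = BB J t a b z → 1 - 3 * t - η ≤ PE J t z a b γ ∧ PE J t z a b γ ≤ 1 + η

/-- PIN: the metric is pinched.
Proof. For an orthonormal pair `(u, v)` at `p` take covectors `a`, `b` with `W (j p) a = d u`, `W (j p) b = d v` (`Emb.exists_covec`); by `hg`
`⟪a, W a⟫ = g(u, u) = 1` etc.; `Emb.curv_eq` gives `γ` and `sec = Pexp`, which is in `[l, h]` by the hypothesis; `δ h ≤ l`. -/
def S_PIN : Prop := S_PEX → ∀ (d : ℕ), 4 ≤ d → ∀ (X : Emb (𝓡 d) (EE d) (EE d)) (r c : ℝ), Good X r c →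
  ∀ (J : EE d →L[ℝ] EE d) (e : Fin (d / 2) → EE d), IsJ J e → ∀ t : ℝ, X.Com (W J t) →
  ∀ (l h δ : ℝ), 0 < l → 0 < δ → δ * h ≤ l →
  (∀ z a b γ : EE d, ‖z‖ < r →
    inner ℝ a (W J t z a) = (1 : ℝ) → inner ℝ b (W J t z b) = (1 : ℝ) → inner ℝ a (W J t z b) = (0 : ℝ) →
    W J t z γ = BB J t a b z → l ≤ PE J t z a b γ ∧ PE J t z a b γ ≤ h) →
  ∀ (g : ContMDiffRiemannianMetric (𝓡 d) ∞ (EE d) (fun x : EE d => TangentSpace (𝓡 d) x)),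
  X.Dual g (W J t) →
  ∀ (cov : CovariantDerivative (𝓡 d) (EE d) (TangentSpace (𝓡 d) : EE d → Type _)) (R : CurvField (𝓡 d) (EE d)),
  IsLeviCivita g cov → IsRiemannTensor cov R → PointwisePinched g R δ

/-- ZER: the metric and the sectional curvature at the point `0`.
Proof. `W J t (j 0) = W J t 0 = id` (`S_KZE`) and `d v = c v`, so the covector of `v` is `c v`: `g(v, w) = ⟪c v, c w⟫` (`hg`), and `Emb.curv_eq` at `p = 0` with
`a = c u`, `b = c v`: `γ = W 0 γ = Br = BB = 0`, `Pexp = PE 0 (c u) (c v) 0 = K0 (c u) (c v) = c⁴ K0 u v`. -/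
def S_ZER : Prop := S_PEX → S_KZE → ∀ (d : ℕ), 4 ≤ d → ∀ (X : Emb (𝓡 d) (EE d) (EE d)) (r c : ℝ), Good X r c →
  ∀ (J : EE d →L[ℝ] EE d) (e : Fin (d / 2) → EE d), IsJ J e → ∀ t : ℝ, X.Com (W J t) →
  ∀ (g : ContMDiffRiemannianMetric (𝓡 d) ∞ (EE d) (fun x : EE d => TangentSpace (𝓡 d) x)),
  X.Dual g (W J t) →
  ∀ (cov : CovariantDerivative (𝓡 d) (EE d) (TangentSpace (𝓡 d) : EE d → Type _)) (R : CurvField (𝓡 d) (EE d)),
  IsLeviCivita g cov → IsRiemannTensor cov R → ∀ u v : EE d,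
  g.inner (0 : EE d) u v = c ^ 2 * inner ℝ u v ∧
  g.inner (0 : EE d) (R (0 : EE d) u v v) u = c ^ 4 * K0 J t u v

/-- the polarisation of `K0` (24 times) -/
def Q4 {d : ℕ} (J : EE d →L[ℝ] EE d) (t : ℝ) (x y z w : EE d) : ℝ :=
  (K0 J t (x + w) (y + z) - K0 J t (x + w) (y - z) - K0 J t (x - w) (y + z) + K0 J t (x - w) (y - z)) -
    (K0 J t (y + w) (x + z) - K0 J t (y + w) (x - z) - K0 J t (y - w) (x + z) + K0 J t (y - w) (x - z))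

/-- NEG: pure calculation.
Proof. `Q4 x y z w = 24 (⟪y, z⟫⟪x, w⟫ - ⟪x, z⟫⟪y, w⟫ - t (⟪J y, z⟫⟪J x, w⟫ - ⟪J x, z⟫⟪J y, w⟫ - 2 ⟪J x, y⟫⟪J z, w⟫))` by expansion (`J` skew), and for
`(x, y, z, w) = (e_i, J e_i, J e_j, e_j)` this is `24 (δ_ij - t (δ_ij + 2))`. With `m = d / 2` the sum is `24 (m - t (m + 2 m²))`. -/
def S_NEG : Prop := ∀ (d : ℕ) (J : EE d →L[ℝ] EE d) (e : Fin (d / 2) → EE d), IsJ J e → ∀ t : ℝ,
  ∑ i, ∑ j, Q4 J t (e i) (J (e i)) (J (e j)) (e j) =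
    24 * (((d / 2 : ℕ) : ℝ) * (1 - (2 * ((d / 2 : ℕ) : ℝ) + 1) * t))

/-- OPE: the curvature operator is not positive.
Proof. Let `B` be the form at `0`, `ω = ∑_i e_i ∧ J e_i`. `B(ω, ω) = ∑_i ∑_j g(R(e_i, J e_i) J e_j, e_j)`. With the inner product `g.inner 0` on the tangent space
(`letI : RiemannianBundle _ := ⟨g.toRiemannianMetric⟩`, `isCurvatureTensor`) `berger_identity` gives
`24 g(R(x, y) z, w) = c⁴ Q4 x y z w`, so `24 B(ω, ω) = c⁴ · 24 m (1 - (2 m + 1) t) < 0`. And `ω ≠ 0` as `B(ω, ω) ≠ 0`. -/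
def S_OPE : Prop := S_NEG → ∀ (d : ℕ), 4 ≤ d → ∀ c : ℝ, 0 < c →
  ∀ (J : EE d →L[ℝ] EE d) (e : Fin (d / 2) → EE d), IsJ J e → ∀ t : ℝ,
  1 < (2 * ((d / 2 : ℕ) : ℝ) + 1) * t →
  ∀ (g : ContMDiffRiemannianMetric (𝓡 d) ∞ (EE d) (fun x : EE d => TangentSpace (𝓡 d) x))
  (cov : CovariantDerivative (𝓡 d) (EE d) (TangentSpace (𝓡 d) : EE d → Type _)) (R : CurvField (𝓡 d) (EE d)),
  IsLeviCivita g cov → IsRiemannTensor cov R →
  (∀ u v : EE d, g.inner (0 : EE d) (R (0 : EE d) u v v) u = c ^ 4 * K0 J t u v) →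
  ¬ HasPositiveCurvatureOperator g R

/-- LOW: the lower bound.
Proof. Suppose `Forces d δ`, `0 < δ < bet d = 1 - 3/(2 m + 1)`. Choose `t` with `1/(2 m + 1) < t < (1 - δ)/3` and `η > 0` with `δ (1 + η) ≤ 1 - 3 t - η`; `r` from
the local statement, `X` from `S_EMB`, `g` from `Emb.exists_metric`, `cov`, `R` from `Emb.exists_cov`; then `S_PIN`, `S_ZER`, `S_OPE`. -/
def S_LOW : Prop := S_JEX → S_KZE → S_LOC → S_EMB → S_COM → S_PEX → S_PIN → S_ZER → S_NEG → S_OPE →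
  ∀ d : ℕ, 4 ≤ d → ∀ δ : ℝ, 0 < δ → δ < bet d → ¬ Forces d δ

/-- the final statement -/
def S_FINAL : Prop := ∀ d : ℕ, 4 ≤ d →
  pinchingConstant d = (2 * ((d / 2 : ℕ) : ℝ) - 2) / (2 * ((d / 2 : ℕ) : ℝ) + 1)

end Pool.Agent.Q22.PK
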